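import Mathlib

/-!
helper85 (project MP_28250c_GT): divisibility by powers of `p` in `Z/q`.
-/

set_option autoImplicit false

namespace PPh.TU

/-- An element of `Z/q` which is divisible by the largest power of `p` dividing `q` is divisible by every power of `p`. -/
theorem pw_dvd {p q : ℕ} (hp : p.Prime) (hq : q ≠ 0) (l : ℕ) {t : ZMod q} (h : ((p ^ q.factorization p : ℕ) : ZMod q) ∣ t) :
    ((p ^ l : ℕ) : ZMod q) ∣ t := by
  refine dvd_trans ?_ h
  obtain ⟨j, hj, hg⟩ := (Nat.dvd_prime_pow hp).1 (Nat.gcd_dvd_left (p ^ l) q)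
  have hjk : j ≤ q.factorization p := (hp.pow_dvd_iff_le_factorization hq).1 (hg ▸ Nat.gcd_dvd_right (p ^ l) q)
  have h1 : ((p ^ l : ℕ) : ZMod q) ∣ ((p ^ j : ℕ) : ZMod q) := by
    refine ⟨((Nat.gcdA (p ^ l) q : ℤ) : ZMod q), ?_⟩
    have h2 := Nat.gcd_eq_gcd_ab (p ^ l) q
    have h3 : (((Nat.gcd (p ^ l) q : ℕ) : ℤ) : ZMod q) = (((p ^ l : ℕ) * Nat.gcdA (p ^ l) q + (q : ℕ) * Nat.gcdB (p ^ l) q : ℤ) : ZMod q) := by
      rw [h2]
    rw [hg] at h3
    push_cast at h3 ⊢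
    simpa using h3
  refine h1.trans ?_
  obtain ⟨i, hi⟩ := Nat.exists_eq_add_of_le hjk
  rw [hi, pow_add, Nat.cast_mul]
  exact dvd_mul_right _ _

end PPh.TU
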