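import Pool.Agent.H85.GT.Ren

/-!
helper85 (project MP_28250c_GT, upper side): the refutation for lists of vertices with incidence lists.
-/

set_option autoImplicit false
open Finset

namespace PPh.TU

open ACpFrege ACpB ACpSep PPh

variable {q : ℕ}

theorem cp_mem {x : ℕ × Bool} {a : ℕ} (h : a ∈ cp q x) : ∃ c < q, a = x.1 * q + c := by
  unfold cp at h
  obtain ⟨c, hc, h⟩ := List.mem_flatMap.1 h
  exact ⟨c, List.mem_range.1 hc, (List.mem_replicate.1 h).2⟩

theorem cp_len (x : ℕ × Bool) : (cp q x).length ≤ q * q := by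
  unfold cp
  have h : ∀ n ≤ q, ((List.range n).flatMap fun c => List.replicate (if x.2 then c else q - c) (x.1 * q + c)).length ≤ n * q := by
    intro n
    induction n with
    | zero => intro _; simp
    | succ n ih =>
      intro hn
      rw [List.range_succ, List.flatMap_append, List.flatMap_singleton, List.length_append, List.length_replicate]
      have h1 := ih (by omega)
      have h2 : (if x.2 then n else q - n) ≤ q := by split_ifs <;> omega
      calc _ ≤ n * q + q := Nat.add_le_add h1 h2
        _ = (n + 1) * q := by ring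
  exact h q le_rfl

theorem cp_count (x : ℕ × Bool) {ν c : ℕ} (hc : c < q) :
    (cp q x).count (ν * q + c) = if x.1 = ν then (if x.2 then c else q - c) else 0 := by
  unfold cp
  have hinj : ∀ {ν ν' c c' : ℕ}, c < q → c' < q → ν * q + c = ν' * q + c' → ν = ν' ∧ c = c' := by
    intro ν ν' c c' hc hc' h
    have h0 : 0 < q := by omega
    have h1 : (ν * q + c) % q = (ν' * q + c') % q := by rw [h]
    have h2 : (ν * q + c) / q = (ν' * q + c') / q := by rw [h]
    rw [Nat.mul_comm, Nat.mul_comm ν', Nat.mul_add_mod, Nat.mul_add_mod, Nat.mod_eq_of_lt hc, Nat.mod_eq_of_lt hc'] at h1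
    rw [Nat.mul_comm, Nat.mul_comm ν', Nat.mul_add_div h0, Nat.mul_add_div h0, Nat.div_eq_of_lt hc, Nat.div_eq_of_lt hc'] at h2
    exact ⟨by omega, h1⟩
  have h : ∀ n ≤ q, ((List.range n).flatMap fun c => List.replicate (if x.2 then c else q - c) (x.1 * q + c)).count (ν * q + c) =
      if x.1 = ν ∧ c < n then (if x.2 then c else q - c) else 0 := by
    intro n
    induction n with
    | zero => intro _; simp
    | succ n ih =>
      intro hn
      rw [List.range_succ, List.flatMap_append, List.flatMap_singleton, List.count_append, ih (by omega), List.count_replicate]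
      by_cases h1 : x.1 = ν ∧ c = n
      · have a1 : ¬ (x.1 = ν ∧ c < n) := fun h => by omega
        have a2 : (x.1 * q + n == ν * q + c) = true := by
          rw [h1.1, h1.2]
          simp
        have a3 : x.1 = ν ∧ c < n + 1 := ⟨h1.1, by omega⟩
        rw [if_neg a1, if_pos a2, if_pos a3, h1.2, Nat.zero_add]
      · have a2 : ¬ (x.1 * q + n == ν * q + c) = true := by
          intro h2
          have h3 := hinj (by omega) hc (beq_iff_eq.1 h2)
          exact h1 ⟨h3.1, h3.2.symm⟩
        by_cases h4 : x.1 = ν ∧ c < n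
        · have a3 : x.1 = ν ∧ c < n + 1 := ⟨h4.1, by omega⟩
          rw [if_pos h4, if_neg a2, if_pos a3, Nat.add_zero]
        · have a3 : ¬ (x.1 = ν ∧ c < n + 1) := by
            intro h5
            rcases Nat.lt_succ_iff_lt_or_eq.1 h5.2 with h6 | h6
            · exact h4 ⟨h5.1, h6⟩
            · exact h1 ⟨h5.1, h6⟩
          rw [if_neg h4, if_neg a2, if_neg a3]
  rw [h q le_rfl]
  simp [hc]

theorem cps_count {ν c : ℕ} (hc : c < q) : ∀ L : List (ℕ × Bool),
    (L.flatMap (cp q)).count (ν * q + c) = c * L.count (ν, true) + (q - c) * L.count (ν, false) := by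
  intro L
  induction L with
  | nil => simp
  | cons x L ih =>
    obtain ⟨e, b⟩ := x
    rw [List.flatMap_cons, List.count_append, ih, cp_count _ hc, List.count_cons, List.count_cons]
    by_cases he : e = ν
    · subst he
      cases b
      · simp
        ring
      · simp
        ring
    · rw [if_neg he]
      simp [he]

theorem fst_count {ν : ℕ} : ∀ L : List (ℕ × Bool), (L.map Prod.fst).count ν = L.count (ν, true) + L.count (ν, false) := by
  intro L
  induction L with
  | nil => simp
  | cons x L ih =>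
    obtain ⟨e, b⟩ := x
    rw [List.map_cons, List.count_cons, ih, List.count_cons, List.count_cons]
    by_cases he : e = ν
    · subst he
      cases b
      · simp
        ring
      · simp
        ring
    · simp [he]

/-- Every edge of the list occurs exactly once in each direction. -/
def Bal (L : List (ℕ × Bool)) : Prop := L.Nodup ∧ ∀ x ∈ L, (x.1, true) ∈ L ∧ (x.1, false) ∈ L

theorem Bal.count {L : List (ℕ × Bool)} (h : Bal L) {x : ℕ × Bool} (hx : x ∈ L) :
    L.count (x.1, true) = 1 ∧ L.count (x.1, false) = 1 :=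
  ⟨List.count_eq_one_of_mem h.1 (h.2 x hx).1, List.count_eq_one_of_mem h.1 (h.2 x hx).2⟩

theorem flat_len {α β : Type} (l : List α) (f : α → List β) (c : ℕ) (h : ∀ a ∈ l, (f a).length ≤ c) :
    (l.flatMap f).length ≤ l.length * c := by
  induction l with
  | nil => simp
  | cons a l ih =>
    rw [List.flatMap_cons, List.length_append, List.length_cons]
    have h1 := h a List.mem_cons_self
    have h2 := ih fun b hb => h b (List.mem_cons_of_mem _ hb)
    calc _ ≤ c + l.length * c := Nat.add_le_add h1 h2
      _ = (l.length + 1) * c := by ring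

variable {F : CNF}

theorem up_T [NeZero q] {D w : ℕ} (W : List (List (ℕ × Bool) × ZMod q)) (hD : ∀ x ∈ W, x.1.length ≤ D)
    (hF1 : ∀ x ∈ W, ∀ e ∈ x.1, ∀ C ∈ exone q e.1, C ∈ F) (hF2 : ∀ x ∈ W, ∀ C ∈ eqc q x.1 x.2, C ∈ F) (hw : ∀ C ∈ F, C.length ≤ w)
    (hb : Bal (W.flatMap Prod.fst)) (hs : (W.map Prod.snd).sum ≠ 0) :
    ∃ π : List (Fm q), Refutes (SysT q D) 2 F π ∧
      psize π ≤ (F.length + 2 + 2 * W.length + W.length * D * (q * q)) * (1 + 2 * w + W.length * D * (q * q)) := by
  have e1 : (W.map fun x => (x.1.flatMap (cp q), x.2)).flatMap Prod.fst = (W.flatMap Prod.fst).flatMap (cp q) := by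
    rw [List.flatMap_map, List.flatMap_assoc]
  have e2 : (W.map fun x => (x.1.flatMap (cp q), x.2)).map Prod.snd = W.map Prod.snd := by
    rw [List.map_map]
    rfl
  obtain ⟨π, h1, h2⟩ := up_core (F := F) (S := SysT q D) (fun R hR => List.mem_append_left _ hR)
    (W.map fun x => (x.1.flatMap (cp q), x.2)) w hw (by
      intro x hx T' hT
      obtain ⟨y, hy, rfl⟩ := List.mem_map.1 hx
      exact sq_vR (hD y hy) y.2 (hF1 y hy) (hF2 y hy) T' hT) (by
      rw [e1]
      intro a ha
      obtain ⟨x, hx, hax⟩ := List.mem_flatMap.1 ha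
      obtain ⟨c, hc, rfl⟩ := cp_mem hax
      rw [cps_count hc, (hb.count hx).1, (hb.count hx).2]
      omega) (by rw [e2]; exact hs)
  refine ⟨π, h1, h2.trans ?_⟩
  rw [e1, List.length_map]
  have h3 : ((W.flatMap Prod.fst).flatMap (cp q)).length ≤ W.length * D * (q * q) :=
    (flat_len _ _ _ fun x _ => cp_len x).trans (Nat.mul_le_mul_right _ (flat_len _ _ _ hD))
  exact Nat.mul_le_mul (by omega) (by omega)

theorem up_B {D w : ℕ} (W : List (List (ℕ × Bool) × ZMod 2)) (hD : ∀ x ∈ W, x.1.length ≤ D)
    (hF2 : ∀ x ∈ W, ∀ C ∈ eqb x.1 x.2, C ∈ F) (hw : ∀ C ∈ F, C.length ≤ w)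
    (hb : Bal (W.flatMap Prod.fst)) (hs : (W.map Prod.snd).sum ≠ 0) :
    ∃ π : List (Fm 2), Refutes (SysB D) 2 F π ∧
      psize π ≤ (F.length + 2 + 2 * W.length + W.length * D) * (1 + 2 * w + W.length * D) := by
  have e1 : (W.map fun x => (x.1.map Prod.fst, x.2)).flatMap Prod.fst = (W.flatMap Prod.fst).map Prod.fst := by
    rw [List.flatMap_map, List.map_flatMap]
  have e2 : (W.map fun x => (x.1.map Prod.fst, x.2)).map Prod.snd = W.map Prod.snd := by
    rw [List.map_map]
    rfl
  obtain ⟨π, h1, h2⟩ := up_core (F := F) (S := SysB D) (fun R hR => List.mem_append_left _ hR)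
    (W.map fun x => (x.1.map Prod.fst, x.2)) w hw (by
      intro x hx T' hT
      obtain ⟨y, hy, rfl⟩ := List.mem_map.1 hx
      exact sq_vRb (hD y hy) y.2 (hF2 y hy) T' hT) (by
      rw [e1]
      intro a ha
      obtain ⟨x, hx, rfl⟩ := List.mem_map.1 ha
      rw [fst_count, (hb.count hx).1, (hb.count hx).2]) (by rw [e2]; exact hs)
  refine ⟨π, h1, h2.trans ?_⟩
  rw [e1, List.length_map, List.length_map]
  have h3 : (W.flatMap Prod.fst).length ≤ W.length * D := flat_len _ _ _ hD
  exact Nat.mul_le_mul (by omega) (by omega)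

end PPh.TU
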