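import Pool.Agent.H85.GT.Gen
import Pool.Agent.H94.TM.Defs

/-!
helper85 (project MP_28250c_TM, upper side): the Tseitin formulas modulo `q` of graphs of bounded degree have polynomial size refutations
with lines of depth at most 2 in a finite sound Frege system with `MOD_q` connectives.
-/

set_option autoImplicit false
open Finset

namespace PPh.TU

open ACpFrege ACpB ACpSep PPh

/-! ### Sizes -/

theorem asg_len (q : ℕ) : ∀ l : List (ℕ × Bool), (asg q l).length = q ^ l.length := by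
  intro l
  induction l with
  | nil => simp [asg]
  | cons e l ih =>
    rw [asg, List.length_cons, List.length_flatMap]
    simp only [List.length_map, ih]
    rw [List.map_const', List.sum_replicate, List.length_range, smul_eq_mul, pow_succ, Nat.mul_comm]

theorem asg_elen (q : ℕ) : ∀ l : List (ℕ × Bool), ∀ a ∈ asg q l, a.length = l.length := by
  intro l
  induction l with
  | nil =>
    intro a ha
    simp only [asg, List.mem_singleton] at ha
    rw [ha]
    rfl
  | cons e l ih =>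
    intro a ha
    rw [asg, List.mem_flatMap] at ha
    obtain ⟨c, _, ha⟩ := ha
    obtain ⟨a', ha', rfl⟩ := List.mem_map.1 ha
    rw [List.length_cons, List.length_cons, ih a' ha']

theorem eqc_len (q : ℕ) (l : List (ℕ × Bool)) (s : ZMod q) : (eqc q l s).length ≤ q ^ l.length := by
  unfold eqc
  rw [List.length_map, ← asg_len]
  exact List.length_filter_le _ _

theorem eqb_len (l : List (ℕ × Bool)) (s : ZMod 2) : (eqb l s).length ≤ 2 ^ l.length := by
  unfold eqb
  rw [List.length_map, ← asg_len]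
  exact List.length_filter_le _ _

theorem eqc_wid {q : ℕ} {l : List (ℕ × Bool)} {s : ZMod q} {C : List Lit} (h : C ∈ eqc q l s) : C.length = l.length := by
  unfold eqc at h
  obtain ⟨a, ha, rfl⟩ := List.mem_map.1 h
  rw [List.length_map, asg_elen q l a (List.mem_of_mem_filter ha)]

theorem eqb_wid {l : List (ℕ × Bool)} {s : ZMod 2} {C : List Lit} (h : C ∈ eqb l s) : C.length = l.length := by
  unfold eqb at h
  obtain ⟨a, ha, rfl⟩ := List.mem_map.1 h
  rw [List.length_map, asg_elen 2 l a (List.mem_of_mem_filter ha)]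

theorem exone_len (q ν : ℕ) : (exone q ν).length ≤ 1 + q * q := by
  unfold exone
  rw [List.length_append, List.length_singleton]
  refine Nat.add_le_add_left ((flat_len _ _ q fun c' hc' => ?_).trans ?_) 1
  · rw [List.length_map, List.length_range]
    exact (List.mem_range.1 hc').le
  · rw [List.length_range]

theorem exone_wid {q ν : ℕ} (hq : 2 ≤ q) {C : List Lit} (h : C ∈ exone q ν) : C.length ≤ q := by
  unfold exone at h
  rcases List.mem_append.1 h with h | h
  · rw [List.mem_singleton] at h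
    rw [h, List.length_map, List.length_range]
  · obtain ⟨c', _, h⟩ := List.mem_flatMap.1 h
    obtain ⟨c, _, rfl⟩ := List.mem_map.1 h
    simpa using hq

/-- The final bound. -/
theorem pol_bd (X m K₁ K₂ : ℕ) (h1 : m ≤ K₁ * X ^ 2) (hX : 2 ≤ X) (m' : ℕ) (h2 : m' ≤ K₂ * X ^ 2) : m * m' ≤ X ^ (K₁ * K₂ + 4) := by
  calc m * m' ≤ (K₁ * X ^ 2) * (K₂ * X ^ 2) := Nat.mul_le_mul h1 h2
    _ = (K₁ * K₂) * X ^ 4 := by ring
    _ ≤ 2 ^ (K₁ * K₂) * X ^ 4 := Nat.mul_le_mul_right _ Nat.lt_two_pow_self.le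
    _ ≤ X ^ (K₁ * K₂) * X ^ 4 := Nat.mul_le_mul_right _ (Nat.pow_le_pow_left hX _)
    _ = X ^ (K₁ * K₂ + 4) := by rw [pow_add]

/-! ### Graphs -/

section
variable {v : ℕ} (G : SimpleGraph (Fin v)) [DecidableRel G.Adj]

theorem einc_mem {w : Fin v} {x : ℕ × Bool} : x ∈ einc G w ↔
    ∃ b, G.Adj w b ∧ ((b < w ∧ x = (b.1 * v + w.1, true)) ∨ (w < b ∧ x = (w.1 * v + b.1, false))) := by
  unfold einc
  rw [List.mem_map]
  constructor
  · rintro ⟨b, hb, rfl⟩
    rw [List.mem_filter] at hb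
    have hadj : G.Adj w b := by simpa using hb.2
    refine ⟨b, hadj, ?_⟩
    by_cases h : b < w
    · exact Or.inl ⟨h, by rw [if_pos h]⟩
    · exact Or.inr ⟨lt_of_le_of_ne (not_lt.1 h) hadj.ne, by rw [if_neg h]⟩
  · rintro ⟨b, hadj, h⟩
    refine ⟨b, List.mem_filter.2 ⟨List.mem_finRange b, by simpa using hadj⟩, ?_⟩
    rcases h with ⟨h, rfl⟩ | ⟨h, rfl⟩
    · rw [if_pos h]
    · rw [if_neg (not_lt.2 h.le)]

theorem num_inj {a b a' b' : Fin v} (h : a.1 * v + b.1 = a'.1 * v + b'.1) : a = a' ∧ b = b' := by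
  have h0 : 0 < v := lt_of_le_of_lt (Nat.zero_le _) a.2
  have h1 : (a.1 * v + b.1) % v = (a'.1 * v + b'.1) % v := by rw [h]
  have h2 : (a.1 * v + b.1) / v = (a'.1 * v + b'.1) / v := by rw [h]
  rw [Nat.mul_comm, Nat.mul_comm a'.1, Nat.mul_add_mod, Nat.mul_add_mod, Nat.mod_eq_of_lt b.2, Nat.mod_eq_of_lt b'.2] at h1
  rw [Nat.mul_comm, Nat.mul_comm a'.1, Nat.mul_add_div h0, Nat.mul_add_div h0, Nat.div_eq_of_lt b.2, Nat.div_eq_of_lt b'.2] at h2
  exact ⟨Fin.ext (by omega), Fin.ext h1⟩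

theorem einc_nodup (w : Fin v) : (einc G w).Nodup := by
  unfold einc
  refine List.Nodup.map ?_ ((List.nodup_finRange v).filter _)
  intro b b' h
  simp only at h
  split_ifs at h with h1 h2 h2
  · exact (num_inj (Prod.ext_iff.1 h).1).1
  · exact absurd (Prod.ext_iff.1 h).2 (by simp)
  · exact absurd (Prod.ext_iff.1 h).2 (by simp)
  · exact (num_inj (Prod.ext_iff.1 h).1).2

theorem einc_disj {w w' : Fin v} (hne : w ≠ w') : List.Disjoint (einc G w) (einc G w') := by
  intro x hx hx'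
  rw [einc_mem] at hx hx'
  obtain ⟨b, _, hb⟩ := hx
  obtain ⟨b', _, hb'⟩ := hx'
  rcases hb with ⟨_, rfl⟩ | ⟨_, rfl⟩
  · rcases hb' with ⟨_, h⟩ | ⟨_, h⟩
    · exact hne (num_inj (Prod.ext_iff.1 h).1).2
    · exact absurd (Prod.ext_iff.1 h).2 (by simp)
  · rcases hb' with ⟨_, h⟩ | ⟨_, h⟩
    · exact absurd (Prod.ext_iff.1 h).2 (by simp)
    · exact hne (num_inj (Prod.ext_iff.1 h).1).1

theorem einc_bal : Bal ((List.finRange v).flatMap (einc G)) := by
  constructor
  · rw [List.nodup_flatMap]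
    refine ⟨fun w _ => einc_nodup G w, ?_⟩
    exact (List.nodup_finRange v).pairwise_of_forall_ne fun w _ w' _ hne => einc_disj G hne
  · intro x hx
    obtain ⟨w, _, hx⟩ := List.mem_flatMap.1 hx
    obtain ⟨b, hadj, hb⟩ := (einc_mem G).1 hx
    rcases hb with ⟨h, rfl⟩ | ⟨h, rfl⟩
    · exact ⟨List.mem_flatMap.2 ⟨w, List.mem_finRange w, hx⟩, List.mem_flatMap.2 ⟨b, List.mem_finRange b, (einc_mem G).2
        ⟨w, hadj.symm, Or.inr ⟨h, rfl⟩⟩⟩⟩
    · exact ⟨List.mem_flatMap.2 ⟨b, List.mem_finRange b, (einc_mem G).2 ⟨w, hadj.symm, Or.inl ⟨h, rfl⟩⟩⟩,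
        List.mem_flatMap.2 ⟨w, List.mem_finRange w, hx⟩⟩

theorem einc_deg (w : Fin v) : (einc G w).length = G.degree w := by
  unfold einc
  rw [List.length_map, ← List.toFinset_card_of_nodup ((List.nodup_finRange v).filter _), SimpleGraph.degree]
  congr 1
  ext b
  simp

theorem gedg_mem' {a b : Fin v} (h : a < b) (hadj : G.Adj a b) : a.1 * v + b.1 ∈ gedg G := by
  unfold gedg
  exact List.mem_flatMap.2 ⟨a, List.mem_finRange a, List.mem_map.2 ⟨b, List.mem_filter.2 ⟨List.mem_finRange b, by simp [h, hadj]⟩, rfl⟩⟩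

theorem einc_gedg' {w : Fin v} {x : ℕ × Bool} (hx : x ∈ einc G w) : x.1 ∈ gedg G := by
  obtain ⟨b, hadj, hb⟩ := (einc_mem G).1 hx
  rcases hb with ⟨h, rfl⟩ | ⟨h, rfl⟩
  · exact gedg_mem' G h hadj.symm
  · exact gedg_mem' G h hadj

theorem gedg_len : (gedg G).length ≤ v * v := by
  unfold gedg
  refine (flat_len _ _ v fun a _ => ?_).trans (by rw [List.length_finRange])
  rw [List.length_map]
  exact (List.length_filter_le _ _).trans (by rw [List.length_finRange])

end

/-- The Tseitin formulas modulo `q` of graphs of maximum degree at most `Δ` have refutations of polynomial size, with lines of depth at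
most 2, in a finite sound Frege system with `MOD_q` connectives. -/
theorem tsg_up (q : ℕ) (hq : 2 ≤ q) (Δ : ℕ) : ∃ (S : List (Rule q)) (c : ℕ), (∀ R ∈ S, R.Sound) ∧
    ∀ (v : ℕ) (G : SimpleGraph (Fin v)) [DecidableRel G.Adj], (∀ w, G.degree w ≤ Δ) → ∀ σ : Fin v → ZMod q, ∑ w, σ w ≠ 0 →
      ∃ π : List (Fm q), Refutes S 2 (tsg G q σ) π ∧ psize π ≤ (v + 2) ^ c := by
  haveI : NeZero q := ⟨by omega⟩
  refine ⟨SysT q Δ, (1 + q * q + q ^ Δ + 4 + Δ * (q * q)) * (1 + 2 * (q + Δ) + Δ * (q * q)) + 4, sysT_sound hq Δ, ?_⟩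
  intro v G _ hΔ σ hσ
  have hlen : ∀ w, (einc G w).length ≤ Δ := fun w => (einc_deg G w).trans_le (hΔ w)
  obtain ⟨π, h1, h2⟩ := up_T (F := tsg G q σ) (D := Δ) (w := q + Δ) ((List.finRange v).map fun w => (einc G w, σ w)) (by
      intro x hx
      obtain ⟨w, _, rfl⟩ := List.mem_map.1 hx
      exact hlen w) (by
      intro x hx e he C hC
      obtain ⟨w, _, rfl⟩ := List.mem_map.1 hx
      exact List.mem_append_left _ (List.mem_flatMap.2 ⟨e.1, einc_gedg' G he, hC⟩)) (by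
      intro x hx C hC
      obtain ⟨w, hw, rfl⟩ := List.mem_map.1 hx
      exact List.mem_append_right _ (List.mem_flatMap.2 ⟨w, hw, hC⟩)) (by
      intro C hC
      rcases List.mem_append.1 hC with hC | hC
      · obtain ⟨e, _, hC⟩ := List.mem_flatMap.1 hC
        exact (exone_wid hq hC).trans (by omega)
      · obtain ⟨w, _, hC⟩ := List.mem_flatMap.1 hC
        rw [eqc_wid hC]
        exact (hlen w).trans (by omega)) (by
      rw [List.flatMap_map]
      exact einc_bal G) (by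
      rw [List.map_map]
      have : ((List.finRange v).map (Prod.snd ∘ fun w => (einc G w, σ w))).sum = ∑ w, σ w := by
        rw [Fin.sum_univ_def]
        rfl
      rw [this]
      exact hσ)
  refine ⟨π, h1, h2.trans ?_⟩
  rw [List.length_map, List.length_finRange]
  have hF : (tsg G q σ).length ≤ v * v * (1 + q * q) + v * q ^ Δ := by
    unfold tsg
    rw [List.length_append]
    refine Nat.add_le_add ?_ ?_
    · exact (flat_len _ _ _ fun e _ => exone_len q e).trans (Nat.mul_le_mul_right _ (gedg_len G))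
    · refine (flat_len _ _ (q ^ Δ) fun w _ => ?_).trans (by rw [List.length_finRange])
      exact (eqc_len q _ _).trans (Nat.pow_le_pow_right (by omega) (hlen w))
  refine pol_bd (v + 2) _ _ _ ?_ (by omega) _ ?_
  · have e1 : v * v ≤ (v + 2) ^ 2 := by nlinarith
    have e2 : v ≤ (v + 2) ^ 2 := by nlinarith
    have e3 : 2 + 2 * v ≤ 4 * (v + 2) ^ 2 := by nlinarith
    calc _ ≤ (v * v * (1 + q * q) + v * q ^ Δ) + 2 + 2 * v + v * Δ * (q * q) := by omega
      _ = v * v * (1 + q * q) + v * q ^ Δ + (2 + 2 * v) + v * (Δ * (q * q)) := by ring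
      _ ≤ (v + 2) ^ 2 * (1 + q * q) + (v + 2) ^ 2 * q ^ Δ + 4 * (v + 2) ^ 2 + (v + 2) ^ 2 * (Δ * (q * q)) := by gcongr
      _ = (1 + q * q + q ^ Δ + 4 + Δ * (q * q)) * (v + 2) ^ 2 := by ring
  · have e1 : 1 ≤ (v + 2) ^ 2 := Nat.one_le_pow _ _ (by omega)
    have e2 : v ≤ (v + 2) ^ 2 := by nlinarith
    calc 1 + 2 * (q + Δ) + v * Δ * (q * q) = (1 + 2 * (q + Δ)) * 1 + (Δ * (q * q)) * v := by ring
      _ ≤ (1 + 2 * (q + Δ)) * (v + 2) ^ 2 + (Δ * (q * q)) * (v + 2) ^ 2 := by gcongr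
      _ = (1 + 2 * (q + Δ) + Δ * (q * q)) * (v + 2) ^ 2 := by ring

/-- The classical Tseitin formulas of graphs of maximum degree at most `Δ` have refutations of polynomial size, with lines of depth at
most 2, in a finite sound Frege system with `MOD_2` connectives. -/
theorem tsgb_up (Δ : ℕ) : ∃ (S : List (Rule 2)) (c : ℕ), (∀ R ∈ S, R.Sound) ∧
    ∀ (v : ℕ) (G : SimpleGraph (Fin v)) [DecidableRel G.Adj], (∀ w, G.degree w ≤ Δ) → ∀ σ : Fin v → ZMod 2, ∑ w, σ w ≠ 0 →
      ∃ π : List (Fm 2), Refutes S 2 (tsgb G σ) π ∧ psize π ≤ (v + 2) ^ c := by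
  refine ⟨SysB Δ, (2 ^ Δ + 4 + Δ) * (1 + 2 * Δ + Δ) + 4, sysB_sound Δ, ?_⟩
  intro v G _ hΔ σ hσ
  have hlen : ∀ w, (einc G w).length ≤ Δ := fun w => (einc_deg G w).trans_le (hΔ w)
  obtain ⟨π, h1, h2⟩ := up_B (F := tsgb G σ) (D := Δ) (w := Δ) ((List.finRange v).map fun w => (einc G w, σ w)) (by
      intro x hx
      obtain ⟨w, _, rfl⟩ := List.mem_map.1 hx
      exact hlen w) (by
      intro x hx C hC
      obtain ⟨w, hw, rfl⟩ := List.mem_map.1 hx
      exact List.mem_flatMap.2 ⟨w, hw, hC⟩) (by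
      intro C hC
      obtain ⟨w, _, hC⟩ := List.mem_flatMap.1 hC
      rw [eqb_wid hC]
      exact hlen w) (by
      rw [List.flatMap_map]
      exact einc_bal G) (by
      rw [List.map_map]
      have : ((List.finRange v).map (Prod.snd ∘ fun w => (einc G w, σ w))).sum = ∑ w, σ w := by
        rw [Fin.sum_univ_def]
        rfl
      rw [this]
      exact hσ)
  refine ⟨π, h1, h2.trans ?_⟩
  rw [List.length_map, List.length_finRange]
  have hF : (tsgb G σ).length ≤ v * 2 ^ Δ := by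
    unfold tsgb
    refine (flat_len _ _ (2 ^ Δ) fun w _ => ?_).trans (by rw [List.length_finRange])
    exact (eqb_len _ _).trans (Nat.pow_le_pow_right (by omega) (hlen w))
  refine pol_bd (v + 2) _ _ _ ?_ (by omega) _ ?_
  · have e2 : v ≤ (v + 2) ^ 2 := by nlinarith
    have e3 : 2 + 2 * v ≤ 4 * (v + 2) ^ 2 := by nlinarith
    calc _ ≤ v * 2 ^ Δ + 2 + 2 * v + v * Δ := by omega
      _ = v * 2 ^ Δ + (2 + 2 * v) + v * Δ := by ring
      _ ≤ (v + 2) ^ 2 * 2 ^ Δ + 4 * (v + 2) ^ 2 + (v + 2) ^ 2 * Δ := by gcongr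
      _ = (2 ^ Δ + 4 + Δ) * (v + 2) ^ 2 := by ring
  · have e1 : 1 ≤ (v + 2) ^ 2 := Nat.one_le_pow _ _ (by omega)
    have e2 : v ≤ (v + 2) ^ 2 := by nlinarith
    calc 1 + 2 * Δ + v * Δ = (1 + 2 * Δ) * 1 + Δ * v := by ring
      _ ≤ (1 + 2 * Δ) * (v + 2) ^ 2 + Δ * (v + 2) ^ 2 := by gcongr
      _ = (1 + 2 * Δ + Δ) * (v + 2) ^ 2 := by ring

end PPh.TU
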