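import Pool.Agent.H85.GT.Graph

/-!
helper85 (project MP_28250c_GT, upper side): the Tseitin formulas modulo `q` of grids have polynomial size refutations with lines of depth
at most 2 in a finite sound Frege system with `MOD_q` connectives.
-/

set_option autoImplicit false
open Finset

namespace PPh.TU

open ACpFrege ACpB ACpSep PPh

theorem inc_mem {M N i j : ℕ} {x : ℕ × Bool} : x ∈ inc M N i j ↔
    (0 < j ∧ x = (he N i (j - 1), true)) ∨ (0 < i ∧ x = (ve N (i - 1) j, true)) ∨ (j + 1 < N ∧ x = (he N i j, false)) ∨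
      (i + 1 < M ∧ x = (ve N i j, false)) := by
  have h1 : ∀ (c : Prop) [Decidable c] (y : ℕ × Bool), x ∈ (if c then [y] else []) ↔ c ∧ x = y := by
    intro c _ y
    split_ifs with h <;> simp [h]
  unfold inc
  rw [List.mem_append, List.mem_append, List.mem_append, h1, h1, h1, h1, or_assoc]

theorem inc_len (M N i j : ℕ) : (inc M N i j).length ≤ 4 := by
  unfold inc
  rw [List.length_append, List.length_append, List.length_append]
  split_ifs <;> simp

theorem inc_nodup (M N i j : ℕ) : (inc M N i j).Nodup := by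
  unfold inc he ve
  split_ifs <;> simp <;> omega

theorem pos_inj {N i j i' j' : ℕ} (hj : j < N) (hj' : j' < N) (h : i * N + j = i' * N + j') : i = i' ∧ j = j' := by
  have h0 : 0 < N := by omega
  have h1 : (i * N + j) % N = (i' * N + j') % N := by rw [h]
  have h2 : (i * N + j) / N = (i' * N + j') / N := by rw [h]
  rw [Nat.mul_comm, Nat.mul_comm i', Nat.mul_add_mod, Nat.mul_add_mod, Nat.mod_eq_of_lt hj, Nat.mod_eq_of_lt hj'] at h1
  rw [Nat.mul_comm, Nat.mul_comm i', Nat.mul_add_div h0, Nat.mul_add_div h0, Nat.div_eq_of_lt hj, Nat.div_eq_of_lt hj'] at h2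
  exact ⟨by omega, h1⟩

theorem he_inj {N i j i' j' : ℕ} (hj : j < N) (hj' : j' < N) (h : he N i j = he N i' j') : i = i' ∧ j = j' := by
  unfold he at h
  exact pos_inj hj hj' (by omega)

theorem ve_inj {N i j i' j' : ℕ} (hj : j < N) (hj' : j' < N) (h : ve N i j = ve N i' j') : i = i' ∧ j = j' := by
  unfold ve at h
  exact pos_inj hj hj' (by omega)

theorem he_ve {N i j i' j' : ℕ} (h : he N i j = ve N i' j') : False := by
  unfold he ve at h
  omega

theorem inc_inj {M N i j i' j' : ℕ} (hj : j < N) (hj' : j' < N) {x : ℕ × Bool} (h : x ∈ inc M N i j) (h' : x ∈ inc M N i' j') :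
    i = i' ∧ j = j' := by
  rw [inc_mem] at h h'
  rcases h with ⟨h0, rfl⟩ | ⟨h0, rfl⟩ | ⟨h0, rfl⟩ | ⟨h0, rfl⟩ <;> rcases h' with ⟨h1, h⟩ | ⟨h1, h⟩ | ⟨h1, h⟩ | ⟨h1, h⟩
  · have := he_inj (by omega) (by omega) (Prod.ext_iff.1 h).1
    omega
  · exact absurd (Prod.ext_iff.1 h).1 he_ve
  · exact absurd (Prod.ext_iff.1 h).2 (by simp)
  · exact absurd (Prod.ext_iff.1 h).2 (by simp)
  · exact absurd (Prod.ext_iff.1 h).1.symm he_ve
  · have := ve_inj hj hj' (Prod.ext_iff.1 h).1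
    omega
  · exact absurd (Prod.ext_iff.1 h).2 (by simp)
  · exact absurd (Prod.ext_iff.1 h).2 (by simp)
  · exact absurd (Prod.ext_iff.1 h).2 (by simp)
  · exact absurd (Prod.ext_iff.1 h).2 (by simp)
  · exact he_inj hj hj' (Prod.ext_iff.1 h).1
  · exact absurd (Prod.ext_iff.1 h).1 he_ve
  · exact absurd (Prod.ext_iff.1 h).2 (by simp)
  · exact absurd (Prod.ext_iff.1 h).2 (by simp)
  · exact absurd (Prod.ext_iff.1 h).1.symm he_ve
  · exact ve_inj hj hj' (Prod.ext_iff.1 h).1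

theorem inc_bal (M N : ℕ) : Bal ((List.range M).flatMap fun i => (List.range N).flatMap fun j => inc M N i j) := by
  constructor
  · rw [List.nodup_flatMap]
    refine ⟨fun i _ => ?_, ?_⟩
    · rw [List.nodup_flatMap]
      refine ⟨fun j _ => inc_nodup M N i j, ?_⟩
      refine List.Nodup.pairwise_of_forall_ne List.nodup_range fun j hj j' hj' hne => ?_
      intro x hx hx'
      exact hne (inc_inj (List.mem_range.1 hj) (List.mem_range.1 hj') hx hx').2
    · refine List.Nodup.pairwise_of_forall_ne List.nodup_range fun i _ i' _ hne => ?_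
      intro x hx hx'
      obtain ⟨j, hj, hx⟩ := List.mem_flatMap.1 hx
      obtain ⟨j', hj', hx'⟩ := List.mem_flatMap.1 hx'
      exact hne (inc_inj (List.mem_range.1 hj) (List.mem_range.1 hj') hx hx').1
  · intro x hx
    obtain ⟨i, hi, hx⟩ := List.mem_flatMap.1 hx
    obtain ⟨j, hj, hx⟩ := List.mem_flatMap.1 hx
    have key : ∀ (i' j' : ℕ) (y : ℕ × Bool), i' < M → j' < N → y ∈ inc M N i' j' →
        y ∈ (List.range M).flatMap fun i => (List.range N).flatMap fun j => inc M N i j := fun i' j' y h1 h2 h3 =>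
      List.mem_flatMap.2 ⟨i', List.mem_range.2 h1, List.mem_flatMap.2 ⟨j', List.mem_range.2 h2, h3⟩⟩
    rw [List.mem_range] at hi hj
    rcases inc_mem.1 hx with ⟨h0, rfl⟩ | ⟨h0, rfl⟩ | ⟨h0, rfl⟩ | ⟨h0, rfl⟩
    · exact ⟨key i j _ hi hj hx, key i (j - 1) _ hi (by omega) (inc_mem.2 (Or.inr (Or.inr (Or.inl ⟨by omega, rfl⟩))))⟩
    · exact ⟨key i j _ hi hj hx, key (i - 1) j _ (by omega) hj (inc_mem.2 (Or.inr (Or.inr (Or.inr ⟨by omega, rfl⟩))))⟩
    · exact ⟨key i (j + 1) _ hi h0 (inc_mem.2 (Or.inl ⟨by omega, by simp⟩)), key i j _ hi hj hx⟩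
    · exact ⟨key (i + 1) j _ h0 hj (inc_mem.2 (Or.inr (Or.inl ⟨by omega, by simp⟩))), key i j _ hi hj hx⟩

theorem inc_edg {M N i j : ℕ} (hi : i < M) (hj : j < N) {x : ℕ × Bool} (hx : x ∈ inc M N i j) : x.1 ∈ edg M N := by
  unfold edg
  have h1 : ∀ i' j', i' < M → j' + 1 < N → he N i' j' ∈ ((List.range M).flatMap fun i => (List.range (N - 1)).map fun j => he N i j) :=
    fun i' j' h1 h2 => List.mem_flatMap.2 ⟨i', List.mem_range.2 h1, List.mem_map.2 ⟨j', List.mem_range.2 (by omega), rfl⟩⟩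
  have h2 : ∀ i' j', i' + 1 < M → j' < N → ve N i' j' ∈ ((List.range (M - 1)).flatMap fun i => (List.range N).map fun j => ve N i j) :=
    fun i' j' h1 h2 => List.mem_flatMap.2 ⟨i', List.mem_range.2 (by omega), List.mem_map.2 ⟨j', List.mem_range.2 h2, rfl⟩⟩
  rcases inc_mem.1 hx with ⟨h0, rfl⟩ | ⟨h0, rfl⟩ | ⟨h0, rfl⟩ | ⟨h0, rfl⟩
  · exact List.mem_append_left _ (h1 i (j - 1) hi (by omega))
  · exact List.mem_append_right _ (h2 (i - 1) j (by omega) hj)
  · exact List.mem_append_left _ (h1 i j hi h0)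
  · exact List.mem_append_right _ (h2 i j h0 hj)

theorem edg_len (M N : ℕ) : (edg M N).length ≤ 2 * (M * N) := by
  unfold edg
  rw [List.length_append]
  have h1 : ((List.range M).flatMap fun i => (List.range (N - 1)).map fun j => he N i j).length ≤ M * N := by
    refine (flat_len _ _ N fun i _ => ?_).trans (by rw [List.length_range])
    rw [List.length_map, List.length_range]
    omega
  have h2 : ((List.range (M - 1)).flatMap fun i => (List.range N).map fun j => ve N i j).length ≤ M * N := by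
    refine (flat_len _ _ N fun i _ => ?_).trans ?_
    · rw [List.length_map, List.length_range]
    · rw [List.length_range]
      exact Nat.mul_le_mul_right _ (by omega)
  omega

/-- The vertices of the grid with their incidence lists and charges. -/
def WG {q : ℕ} (M N : ℕ) (σ : ℕ → ℕ → ZMod q) : List (List (ℕ × Bool) × ZMod q) :=
  (List.range M).flatMap fun i => (List.range N).map fun j => (inc M N i j, σ i j)

theorem WG_mem {q M N : ℕ} {σ : ℕ → ℕ → ZMod q} {x : List (ℕ × Bool) × ZMod q} (h : x ∈ WG M N σ) :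
    ∃ i < M, ∃ j < N, x = (inc M N i j, σ i j) := by
  unfold WG at h
  obtain ⟨i, hi, h⟩ := List.mem_flatMap.1 h
  obtain ⟨j, hj, rfl⟩ := List.mem_map.1 h
  exact ⟨i, List.mem_range.1 hi, j, List.mem_range.1 hj, rfl⟩

theorem WG_len {q M N : ℕ} (σ : ℕ → ℕ → ZMod q) : (WG M N σ).length = M * N := by
  unfold WG
  rw [List.length_flatMap]
  simp [List.map_const', List.sum_replicate]

theorem WG_fst {q M N : ℕ} (σ : ℕ → ℕ → ZMod q) :
    (WG M N σ).flatMap Prod.fst = (List.range M).flatMap fun i => (List.range N).flatMap fun j => inc M N i j := by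
  unfold WG
  rw [List.flatMap_assoc]
  refine List.flatMap_congr fun i _ => ?_
  rw [List.flatMap_map]

theorem sum_range_list {R : Type} [AddCommMonoid R] (n : ℕ) (f : ℕ → R) : ((List.range n).map f).sum = ∑ i ∈ range n, f i := by
  induction n with
  | zero => simp
  | succ n ih => rw [List.range_succ, List.map_append, List.sum_append, ih, Finset.sum_range_succ]; simp

theorem WG_snd {q M N : ℕ} (σ : ℕ → ℕ → ZMod q) : ((WG M N σ).map Prod.snd).sum = ∑ i ∈ range M, ∑ j ∈ range N, σ i j := by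
  unfold WG
  rw [List.map_flatMap]
  have h : ∀ l : List ℕ, (l.flatMap fun i => ((List.range N).map fun j => (inc M N i j, σ i j)).map Prod.snd).sum =
      (l.map fun i => ∑ j ∈ range N, σ i j).sum := by
    intro l
    induction l with
    | nil => simp
    | cons a l ih =>
      rw [List.flatMap_cons, List.sum_append, ih, List.map_map, List.map_cons, List.sum_cons, ← sum_range_list]
      rfl
  rw [h, sum_range_list]

theorem tse_up (q : ℕ) (hq : 2 ≤ q) : ∃ (S : List (Rule q)) (c : ℕ), (∀ R ∈ S, R.Sound) ∧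
    ∀ (M N : ℕ) (σ : ℕ → ℕ → ZMod q), ∑ i ∈ range M, ∑ j ∈ range N, σ i j ≠ 0 →
      ∃ π : List (Fm q), Refutes S 2 (tse q M N σ) π ∧ psize π ≤ (M * N + 2) ^ c := by
  have : NeZero q := ⟨by omega⟩
  refine ⟨SysT q 4, (2 * (1 + q * q) + q ^ 4 + 4 + 4 * (q * q)) * (1 + 2 * (q + 4) + 4 * (q * q)) + 4, sysT_sound hq 4, ?_⟩
  intro M N σ hσ
  obtain ⟨π, h1, h2⟩ := up_T (F := tse q M N σ) (D := 4) (w := q + 4) (WG M N σ) (by
      intro x hx
      obtain ⟨i, _, j, _, rfl⟩ := WG_mem hx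
      exact inc_len M N i j) (by
      intro x hx e he C hC
      obtain ⟨i, hi, j, hj, rfl⟩ := WG_mem hx
      exact List.mem_append_left _ (List.mem_flatMap.2 ⟨e.1, inc_edg hi hj he, hC⟩)) (by
      intro x hx C hC
      obtain ⟨i, hi, j, hj, rfl⟩ := WG_mem hx
      exact List.mem_append_right _ (List.mem_flatMap.2 ⟨i, List.mem_range.2 hi, List.mem_flatMap.2 ⟨j, List.mem_range.2 hj, hC⟩⟩)) (by
      intro C hC
      rcases List.mem_append.1 hC with hC | hC
      · obtain ⟨e, _, hC⟩ := List.mem_flatMap.1 hC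
        exact (exone_wid hq hC).trans (by omega)
      · obtain ⟨i, _, hC⟩ := List.mem_flatMap.1 hC
        obtain ⟨j, _, hC⟩ := List.mem_flatMap.1 hC
        rw [eqc_wid hC]
        exact (inc_len M N i j).trans (by omega)) (by rw [WG_fst]; exact inc_bal M N) (by rw [WG_snd]; exact hσ)
  refine ⟨π, h1, h2.trans ?_⟩
  rw [WG_len]
  have hF : (tse q M N σ).length ≤ 2 * (M * N) * (1 + q * q) + M * (N * q ^ 4) := by
    unfold tse
    rw [List.length_append]
    refine Nat.add_le_add ?_ ?_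
    · exact (flat_len _ _ _ fun e _ => exone_len q e).trans (Nat.mul_le_mul_right _ (edg_len M N))
    · refine (flat_len _ _ (N * q ^ 4) fun i _ => ?_).trans (by rw [List.length_range])
      refine (flat_len _ _ (q ^ 4) fun j _ => ?_).trans (by rw [List.length_range])
      exact (eqc_len q _ _).trans (Nat.pow_le_pow_right (by omega) (inc_len M N i j))
  have hF' : (tse q M N σ).length ≤ 2 * (M * N) * (1 + q * q) + M * N * q ^ 4 := by rwa [Nat.mul_assoc M N]
  set m := M * N with hm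
  refine pol_bd (m + 2) _ _ _ ?_ (by omega) _ ?_
  · have e2 : m ≤ (m + 2) ^ 2 := by nlinarith
    have e3 : 2 + 2 * m ≤ 4 * (m + 2) ^ 2 := by nlinarith
    calc _ ≤ (2 * m * (1 + q * q) + m * q ^ 4) + 2 + 2 * m + m * 4 * (q * q) := by omega
      _ = m * (2 * (1 + q * q)) + m * q ^ 4 + (2 + 2 * m) + m * (4 * (q * q)) := by ring
      _ ≤ (m + 2) ^ 2 * (2 * (1 + q * q)) + (m + 2) ^ 2 * q ^ 4 + 4 * (m + 2) ^ 2 + (m + 2) ^ 2 * (4 * (q * q)) := by gcongr
      _ = (2 * (1 + q * q) + q ^ 4 + 4 + 4 * (q * q)) * (m + 2) ^ 2 := by ring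
  · have e1 : 1 ≤ (m + 2) ^ 2 := Nat.one_le_pow _ _ (by omega)
    have e2 : m ≤ (m + 2) ^ 2 := by nlinarith
    calc 1 + 2 * (q + 4) + m * 4 * (q * q) = (1 + 2 * (q + 4)) * 1 + (4 * (q * q)) * m := by ring
      _ ≤ (1 + 2 * (q + 4)) * (m + 2) ^ 2 + (4 * (q * q)) * (m + 2) ^ 2 := by gcongr
      _ = (1 + 2 * (q + 4) + 4 * (q * q)) * (m + 2) ^ 2 := by ring

theorem tsb_up : ∃ (S : List (Rule 2)) (c : ℕ), (∀ R ∈ S, R.Sound) ∧
    ∀ (M N : ℕ) (σ : ℕ → ℕ → ZMod 2), ∑ i ∈ range M, ∑ j ∈ range N, σ i j ≠ 0 →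
      ∃ π : List (Fm 2), Refutes S 2 (tsb M N σ) π ∧ psize π ≤ (M * N + 2) ^ c := by
  refine ⟨SysB 4, (2 ^ 4 + 4 + 4) * (1 + 2 * 4 + 4) + 4, sysB_sound 4, ?_⟩
  intro M N σ hσ
  obtain ⟨π, h1, h2⟩ := up_B (F := tsb M N σ) (D := 4) (w := 4) (WG M N σ) (by
      intro x hx
      obtain ⟨i, _, j, _, rfl⟩ := WG_mem hx
      exact inc_len M N i j) (by
      intro x hx C hC
      obtain ⟨i, hi, j, hj, rfl⟩ := WG_mem hx
      exact List.mem_flatMap.2 ⟨i, List.mem_range.2 hi, List.mem_flatMap.2 ⟨j, List.mem_range.2 hj, hC⟩⟩) (by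
      intro C hC
      obtain ⟨i, _, hC⟩ := List.mem_flatMap.1 hC
      obtain ⟨j, _, hC⟩ := List.mem_flatMap.1 hC
      rw [eqb_wid hC]
      exact inc_len M N i j) (by rw [WG_fst]; exact inc_bal M N) (by rw [WG_snd]; exact hσ)
  refine ⟨π, h1, h2.trans ?_⟩
  rw [WG_len]
  have hF : (tsb M N σ).length ≤ M * (N * 2 ^ 4) := by
    unfold tsb
    refine (flat_len _ _ (N * 2 ^ 4) fun i _ => ?_).trans (by rw [List.length_range])
    refine (flat_len _ _ (2 ^ 4) fun j _ => ?_).trans (by rw [List.length_range])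
    exact (eqb_len _ _).trans (Nat.pow_le_pow_right (by omega) (inc_len M N i j))
  have hF' : (tsb M N σ).length ≤ M * N * 2 ^ 4 := by rwa [Nat.mul_assoc M N]
  set m := M * N with hm
  refine pol_bd (m + 2) _ _ _ ?_ (by omega) _ ?_
  · have e2 : m ≤ (m + 2) ^ 2 := by nlinarith
    have e3 : 2 + 2 * m ≤ 4 * (m + 2) ^ 2 := by nlinarith
    calc _ ≤ m * 2 ^ 4 + 2 + 2 * m + m * 4 := by omega
      _ = m * 2 ^ 4 + (2 + 2 * m) + m * 4 := by ring
      _ ≤ (m + 2) ^ 2 * 2 ^ 4 + 4 * (m + 2) ^ 2 + (m + 2) ^ 2 * 4 := by gcongr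
      _ = (2 ^ 4 + 4 + 4) * (m + 2) ^ 2 := by ring
  · have e1 : 1 ≤ (m + 2) ^ 2 := Nat.one_le_pow _ _ (by omega)
    have e2 : m ≤ (m + 2) ^ 2 := by nlinarith
    calc 1 + 2 * 4 + m * 4 = (1 + 2 * 4) * 1 + 4 * m := by ring
      _ ≤ (1 + 2 * 4) * (m + 2) ^ 2 + 4 * (m + 2) ^ 2 := by gcongr
      _ = (1 + 2 * 4 + 4) * (m + 2) ^ 2 := by ring

end PPh.TU
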