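import Pool.Agent.H85.GT.NsUp

/-!
helper85: Nullstellensatz refutations over `F_p` of constant degree give short refutations in Frege systems with `MOD_p`.
-/

set_option autoImplicit false
open Finset

namespace PPh.TU

open ACpFrege ACpB ACpSep PPh

variable {p : ℕ} {F : CNF} {B k : ℕ} {T : Set (Fm p)} {w a : ℕ}

theorem ins_mono' {A A' : Fm p} {T' : Set (Fm p)} (h : T' ⊆ T) : insert A T' ⊆ insert A (insert A' T) := by
  intro x hx
  rcases Set.mem_insert_iff.1 hx with h1 | h1
  · rw [h1]
    exact Set.mem_insert _ _
  · exact Set.mem_insert_of_mem _ (Set.mem_insert_of_mem _ (h h1))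

/-! ### Normal form of conjunctions -/

/-- The members in a fixed order, without repetitions. -/
noncomputable def nf (C : List ℕ) : List ℕ := C.toFinset.toList

theorem mem_nf {C : List ℕ} {x : ℕ} : x ∈ nf C ↔ x ∈ C := by
  unfold nf
  rw [Finset.mem_toList, List.mem_toFinset]

theorem nf_len (C : List ℕ) : (nf C).length ≤ C.length := by
  unfold nf
  rw [Finset.length_toList]
  exact List.toFinset_card_le C

theorem sum_wid (L : List (List ℕ)) (h : ∀ C ∈ L, C.length ≤ a) : (L.map fun C => 1 + C.length).sum ≤ L.length * (1 + a) := by
  induction L with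
  | nil => simp
  | cons C L ih =>
    rw [List.map_cons, List.sum_cons, List.length_cons]
    have h1 := h C List.mem_cons_self
    have h2 := ih fun D hD => h D (List.mem_cons_of_mem _ hD)
    calc _ ≤ (1 + a) + L.length * (1 + a) := Nat.add_le_add (by omega) h2
      _ = (L.length + 1) * (1 + a) := by ring

theorem ml_size_le {L : List (List ℕ)} (h : ∀ C ∈ L, C.length ≤ a) : (ml p L).size ≤ 1 + L.length * (1 + a) := by
  rw [ml_size]
  exact Nat.add_le_add_left (sum_wid L h) 1

theorem dn_norm (L2 : List (List ℕ)) : ∀ (L1 : List (List ℕ)) (k : ℕ), (∀ C ∈ L1 ++ L2, C.length ≤ a) → 1 + (L1 ++ L2).length * (1 + a) ≤ B →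
    Dv (SysN p w a) F 2 B k (insert (ml p (L1 ++ L2)) T) →
    Dv (SysN p w a) F 2 B (k + L2.length) (insert (ml p (L1 ++ L2.map nf)) T) := by
  induction L2 with
  | nil =>
    intro L1 k _ _ h
    exact h
  | cons C L2 ih =>
    intro L1 k ha hB h
    have hC : C.length ≤ a := ha C (by simp)
    have hwid : ∀ D ∈ L1 ++ nf C :: L2, D.length ≤ a := by
      intro D hD
      rcases List.mem_append.1 hD with hD | hD
      · exact ha D (List.mem_append_left _ hD)
      · rcases List.mem_cons.1 hD with rfl | hD
        · exact (nf_len C).trans hC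
        · exact ha D (List.mem_append_right _ (List.mem_cons_of_mem _ hD))
    have hlen : (L1 ++ nf C :: L2).length = (L1 ++ C :: L2).length := by simp
    have h1 := h.step (sn_N (C := C) (C' := nf C) (L1 := L1) (L2 := L2) hC ((nf_len C).trans hC) (fun x hx => mem_nf.2 hx)
      (fun x hx => mem_nf.1 hx) (Set.mem_insert _ _)) (ml_depth _) ((ml_size_le hwid).trans (by rw [hlen]; exact hB))
    have e1 : L1 ++ nf C :: L2 = (L1 ++ [nf C]) ++ L2 := by simp
    have e2 : L1 ++ (C :: L2).map nf = (L1 ++ [nf C]) ++ L2.map nf := by simp
    rw [e1] at h1 hwid hlen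
    have h2 := ih (L1 ++ [nf C]) (k + 1) hwid (by rw [hlen]; exact hB) (h1.mono le_rfl (ins_mono' subset_rfl))
    rw [e2]
    exact h2.mono (by rw [List.length_cons]; omega) subset_rfl

/-! ### Removing `p` copies -/

theorem split_n (e : List ℕ) (L : List (List ℕ)) : ∀ n ≤ L.count e,
    ∃ (g : List (List ℕ)) (gs : List (List (List ℕ))), gs.length = n ∧ L = g ++ gs.flatMap (fun g => e :: g) := by
  induction L with
  | nil =>
    intro n hn
    rw [List.count_nil] at hn
    have : n = 0 := by omega
    subst this
    exact ⟨[], [], rfl, rfl⟩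
  | cons b L ih =>
    intro n hn
    by_cases hbe : b = e
    · subst hbe
      rw [List.count_cons_self] at hn
      cases n with
      | zero => exact ⟨b :: L, [], rfl, by simp⟩
      | succ n =>
        obtain ⟨g, gs, h1, h2⟩ := ih n (by omega)
        exact ⟨[], g :: gs, by rw [List.length_cons, h1], by rw [List.nil_append, List.flatMap_cons, List.cons_append, ← h2]⟩
    · rw [List.count_cons_of_ne hbe] at hn
      obtain ⟨g, gs, h1, h2⟩ := ih n hn
      exact ⟨b :: g, gs, h1, by rw [List.cons_append, ← h2]⟩

theorem count_split (e x : List ℕ) (g : List (List ℕ)) (gs : List (List (List ℕ))) :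
    (g ++ gs.flatMap (fun g => e :: g)).count x = (if e = x then gs.length else 0) + (g ++ gs.flatten).count x := by
  induction gs with
  | nil => simp
  | cons b gs ih =>
    rw [List.count_append] at ih ⊢
    rw [List.flatMap_cons, List.count_append, List.count_cons, List.count_append, List.flatten_cons, List.count_append,
      List.length_cons]
    rw [List.count_append] at ih
    by_cases hex : e = x
    · subst hex
      simp only [if_true, beq_self_eq_true] at ih ⊢
      omega
    · simp only [if_neg hex, beq_iff_eq] at ih ⊢
      omega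

theorem len_split {α : Type} (e : α) (g : List α) (gs : List (List α)) :
    (g ++ gs.flatMap (fun g => e :: g)).length = gs.length + (g ++ gs.flatten).length := by
  induction gs with
  | nil => simp
  | cons b gs ih =>
    rw [List.length_append] at ih ⊢
    rw [List.flatMap_cons, List.length_append, List.length_cons, List.length_append, List.flatten_cons, List.length_append,
      List.length_cons]
    rw [List.length_append] at ih
    omega

theorem dn_red (hp : 1 ≤ p) : ∀ (n : ℕ) (M : List (List ℕ)), M.length ≤ n → (∀ C ∈ M, C.length ≤ a) → 1 + M.length * (1 + a) ≤ B →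
    (∀ C ∈ M, C ≠ [] → p ∣ M.count C) → ¬ p ∣ M.count [] → ∀ k : ℕ, Dv (SysN p w a) F 2 B k (insert (ml p M) T) →
    Dv (SysN p w a) F 2 B (k + n + 1) (insert (cnL true []) T) := by
  intro n
  induction n with
  | zero =>
    intro M hM _ _ _ h0 k _
    have : M = [] := List.length_eq_zero_iff.1 (by omega)
    subst this
    exact absurd (dvd_zero p) h0
  | succ n ih =>
    intro M hM ha hB hC h0 k h
    by_cases hex : ∃ C, p ≤ M.count C
    · obtain ⟨C, hCp⟩ := hex
      obtain ⟨g, gs, h1, h2⟩ := split_n C M p hCp
      have hlen : M.length = p + (g ++ gs.flatten).length := by rw [h2, len_split, h1]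
      have hcnt : ∀ x, M.count x = (if C = x then p else 0) + (g ++ gs.flatten).count x := by
        intro x
        rw [h2, count_split, h1]
      have hmem : ∀ x ∈ g ++ gs.flatten, x ∈ M := by
        intro x hx
        have h3 : 0 < (g ++ gs.flatten).count x := List.count_pos_iff.2 hx
        have h4 := hcnt x
        exact List.count_pos_iff.1 (by omega)
      have h3 := h.step (sn_rem C g gs h1 (by rw [← h2]; exact Set.mem_insert _ _)) (ml_depth _)
        ((ml_size_le fun D hD => ha D (hmem D hD)).trans (by
          have : (g ++ gs.flatten).length * (1 + a) ≤ M.length * (1 + a) := Nat.mul_le_mul_right _ (by omega)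
          omega))
      have hdvd : ∀ x, p ∣ M.count x ↔ p ∣ (g ++ gs.flatten).count x := by
        intro x
        rw [hcnt x]
        refine Nat.dvd_add_right ?_
        split_ifs
        · exact dvd_refl p
        · exact dvd_zero p
      have h4 := ih (g ++ gs.flatten) (by omega) (fun D hD => ha D (hmem D hD)) (by
          have : (g ++ gs.flatten).length * (1 + a) ≤ M.length * (1 + a) := Nat.mul_le_mul_right _ (by omega)
          omega) (fun D hD hne => (hdvd D).1 (hC D (hmem D hD) hne)) (fun h5 => h0 ((hdvd []).2 h5)) (k + 1)
          (h3.mono le_rfl (ins_mono' subset_rfl))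
      exact h4.mono (by omega) subset_rfl
    · push Not at hex
      have hall : ∀ C ∈ M, C = [] := by
        intro C hCM
        by_contra hne
        have h1 := hC C hCM hne
        have h2 := Nat.eq_zero_of_dvd_of_lt h1 (hex C)
        have h3 : 0 < M.count C := List.count_pos_iff.2 hCM
        omega
      have hrep : M = List.replicate M.length [] := List.eq_replicate_of_mem hall
      have hcnt : M.count [] = M.length := by
        conv_lhs => rw [hrep]
        rw [List.count_replicate_self]
      have hlt := hex []
      rw [hcnt] at hlt h0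
      have hne : M.length ≠ 0 := fun h1 => h0 (by rw [h1]; exact dvd_zero p)
      have h1 := h.step (sn_bot (c := M.length) hlt hne (by rw [← hrep]; exact Set.mem_insert _ _)) (by
        unfold Fm.depth cnL
        rw [Fm.dep]
        simp) (by
        rw [size_cnL, List.map_nil, List.sum_nil]
        omega)
      exact h1.mono (by omega) (ins_mono' subset_rfl)

/-! ### Counting -/

theorem count_sub (M : List (Finset ℕ)) (A : Finset ℕ) :
    (M.map fun S => decide (S ⊆ A)).count true = ∑ S ∈ A.powerset, M.count S := by
  induction M with
  | nil => simp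
  | cons S M ih =>
    rw [List.map_cons, List.count_cons, ih]
    have h : ∀ S' ∈ A.powerset, (S :: M).count S' = M.count S' + if S = S' then 1 else 0 := by
      intro S' _
      rw [List.count_cons]
      simp
    rw [Finset.sum_congr rfl h, Finset.sum_add_distrib, Finset.sum_ite_eq]
    congr 1
    by_cases h2 : S ⊆ A
    · simp [h2]
    · simp [h2]

theorem counts_of (M : List (Finset ℕ)) {c : ZMod p}
    (h : ∀ A : Finset ℕ, (((M.map fun S => decide (S ⊆ A)).count true : ℕ) : ZMod p) = c) :
    ((M.count ∅ : ℕ) : ZMod p) = c ∧ ∀ S : Finset ℕ, S ≠ ∅ → ((M.count S : ℕ) : ZMod p) = 0 := by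
  have h0 : ((M.count ∅ : ℕ) : ZMod p) = c := by
    have h1 := h ∅
    rw [count_sub, Finset.powerset_empty, Finset.sum_singleton] at h1
    exact h1
  refine ⟨h0, ?_⟩
  intro S
  induction S using Finset.strongInduction with
  | H S ih =>
    intro hS
    have h1 := h S
    rw [count_sub, Nat.cast_sum] at h1
    have h2 : S.powerset = insert S S.ssubsets := by
      ext X
      rw [Finset.mem_insert, Finset.mem_powerset, Finset.mem_ssubsets]
      constructor
      · intro hX
        rcases eq_or_ne X S with h | h
        · exact Or.inl h
        · exact Or.inr (Finset.ssubset_iff_subset_ne.2 ⟨hX, h⟩)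
      · rintro (h | h)
        · rw [h]
        · exact h.1
    rw [h2, Finset.sum_insert (by simp), Finset.sum_eq_single_of_mem ∅ (by
      rw [Finset.mem_ssubsets]
      exact Finset.empty_ssubset.2 (Finset.nonempty_iff_ne_empty.2 hS)) (fun X hX hne => ih X (Finset.mem_ssubsets.1 hX) hne), h0] at h1
    exact add_eq_right.1 h1

theorem nf_count (L : List (List ℕ)) (S : Finset ℕ) : (L.map nf).count S.toList = (L.map List.toFinset).count S := by
  induction L with
  | nil => simp
  | cons C L ih =>
    rw [List.map_cons, List.map_cons, List.count_cons, List.count_cons, ih]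
    congr 1
    by_cases h : C.toFinset = S
    · rw [if_pos (by rw [beq_iff_eq]; unfold nf; rw [h]), if_pos (by simpa using h)]
    · rw [if_neg (by
        rw [beq_iff_eq]
        unfold nf
        intro h1
        have h2 := congrArg List.toFinset h1
        rw [Finset.toList_toFinset, Finset.toList_toFinset] at h2
        exact h h2), if_neg (by simpa using h)]

end PPh.TU
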