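import Pool.Agent.H85.GT.NsTs
import Pool.Agent.H85.GT.Graph

/-!
helper85: if the total charge of a Tseitin formula modulo `q` on a graph of bounded degree is not divisible (in `Z/q`) by the largest power of the prime
`p` which divides `q`, then the formula has polynomial size refutations with lines of depth at most 2 in a finite sound Frege system with `MOD_p`
connectives.
-/

set_option autoImplicit false
open Finset

namespace PPh.TU

open ACpFrege ACpB ACpSep PPh

theorem sat_sum {q : ℕ} {v : ℕ → Bool} {l : List (ℕ × Bool)} {s : ZMod q} (h1 : ∀ e ∈ l, SatBy v (exone q e.1))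
    (h2 : SatBy v (eqc q l s)) : ((((l.flatMap (cp q)).map v).count true : ℕ) : ZMod q) = s := by
  have hv : ∀ e ∈ l, ∃ c, Val v q e.1 c := fun e he => val_of (h1 e he)
  classical
  let c : ℕ → ℕ := fun ν => if h : ∃ c, Val v q ν c then h.choose else 0
  have hc : ∀ e ∈ l, Val v q e.1 (c e.1) := by
    intro e he
    simp only [c]
    rw [dif_pos (hv e he)]
    exact (hv e he).choose_spec
  have hnet : net q (l.map fun e => (e.1, e.2, c e.1)) = s := by
    by_contra hne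
    obtain ⟨t, ht, ht'⟩ := h2 ((l.map fun e => (e.1, e.2, c e.1)).map fun x => nov q x.1 x.2.2)
      (List.mem_map.2 ⟨_, List.mem_filter.2 ⟨asg_mem c _ fun e he => (hc e he).1, by simpa using hne⟩, rfl⟩)
    rw [List.map_map, List.mem_map] at ht
    obtain ⟨e, he, rfl⟩ := ht
    simp only [Function.comp_apply, nov] at ht'
    rw [(hc e he).2.1] at ht'
    exact absurd ht' (by simp)
  rw [count_cps c _ hc, hnet]

theorem count_map_true (v : ℕ → Bool) (L : List ℕ) : (L.map v).count true = L.countP v := by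
  rw [List.count, List.countP_map]
  refine List.countP_congr fun x _ => ?_
  simp

theorem dvd_countP {q : ℕ} (v : ℕ → Bool) (L : List ℕ) (h : ∀ a ∈ L, L.count a = q) : q ∣ L.countP v := by
  rw [List.countP_eq_length_filter, ← List.sum_toFinset_count_eq_length (L.filter v)]
  refine Finset.dvd_sum fun a ha => ?_
  rw [List.mem_toFinset, List.mem_filter] at ha
  rw [List.count_filter ha.2, h a ha.1]

theorem pol_bd' (X m K₁ K₂ e : ℕ) (h1 : m ≤ K₁ * X ^ e) (hX : 2 ≤ X) (m' : ℕ) (h2 : m' ≤ K₂ * X ^ e) : m * m' ≤ X ^ (K₁ * K₂ + 2 * e) := by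
  calc m * m' ≤ (K₁ * X ^ e) * (K₂ * X ^ e) := Nat.mul_le_mul h1 h2
    _ = (K₁ * K₂) * X ^ (2 * e) := by ring
    _ ≤ 2 ^ (K₁ * K₂) * X ^ (2 * e) := Nat.mul_le_mul_right _ Nat.lt_two_pow_self.le
    _ ≤ X ^ (K₁ * K₂) * X ^ (2 * e) := Nat.mul_le_mul_right _ (Nat.pow_le_pow_left hX _)
    _ = X ^ (K₁ * K₂ + 2 * e) := by rw [pow_add]

/-- The variables of the edges in a list. -/
def vrs (q : ℕ) (l : List (ℕ × Bool)) : List ℕ := l.flatMap fun e => (List.range q).map fun c => e.1 * q + c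

theorem vrs_len (q : ℕ) (l : List (ℕ × Bool)) : (vrs q l).length ≤ l.length * q := by
  unfold vrs
  refine flat_len _ _ _ fun e _ => ?_
  rw [List.length_map, List.length_range]

theorem mem_vrs {q : ℕ} {l : List (ℕ × Bool)} {e : ℕ × Bool} (he : e ∈ l) {c : ℕ} (hc : c < q) : e.1 * q + c ∈ vrs q l :=
  List.mem_flatMap.2 ⟨e, he, List.mem_map.2 ⟨c, List.mem_range.2 hc, rfl⟩⟩

theorem exone_vrs {q : ℕ} {l : List (ℕ × Bool)} {e : ℕ × Bool} (he : e ∈ l) {C : List Lit} (hC : C ∈ exone q e.1) :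
    ∀ t ∈ C, t.1 ∈ vrs q l := by
  intro t ht
  unfold exone at hC
  rcases List.mem_append.1 hC with hC | hC
  · rw [List.mem_singleton] at hC
    subst hC
    obtain ⟨c, hc, rfl⟩ := List.mem_map.1 ht
    exact mem_vrs he (List.mem_range.1 hc)
  · obtain ⟨c', hc', hC⟩ := List.mem_flatMap.1 hC
    obtain ⟨c, hc, rfl⟩ := List.mem_map.1 hC
    rw [List.mem_range] at hc hc'
    simp only [List.mem_cons, List.not_mem_nil, or_false] at ht
    rcases ht with rfl | rfl
    · exact mem_vrs he (hc.trans hc')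
    · exact mem_vrs he hc'

theorem asg_fst {q : ℕ} : ∀ (l : List (ℕ × Bool)), ∀ B ∈ asg q l, ∀ x ∈ B, ∃ e ∈ l, e.1 = x.1 ∧ x.2.2 < q := by
  intro l
  induction l with
  | nil =>
    intro B hB x hx
    simp only [asg, List.mem_singleton] at hB
    subst hB
    exact absurd hx (by simp)
  | cons e l ih =>
    intro B hB x hx
    rw [asg, List.mem_flatMap] at hB
    obtain ⟨c, hc, hB⟩ := hB
    obtain ⟨B', hB', rfl⟩ := List.mem_map.1 hB
    rcases List.mem_cons.1 hx with rfl | hx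
    · exact ⟨e, List.mem_cons_self, rfl, List.mem_range.1 hc⟩
    · obtain ⟨e', he', h⟩ := ih B' hB' x hx
      exact ⟨e', List.mem_cons_of_mem _ he', h⟩

theorem eqc_vrs {q : ℕ} {l : List (ℕ × Bool)} {s : ZMod q} {C : List Lit} (hC : C ∈ eqc q l s) : ∀ t ∈ C, t.1 ∈ vrs q l := by
  intro t ht
  unfold eqc at hC
  obtain ⟨B, hB, rfl⟩ := List.mem_map.1 hC
  obtain ⟨x, hx, rfl⟩ := List.mem_map.1 ht
  obtain ⟨e, he, h1, h2⟩ := asg_fst l B (List.mem_of_mem_filter hB) x hx
  simp only [nov]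
  rw [← h1]
  exact mem_vrs he h2

/-- The Tseitin formula modulo `q` of a graph of maximum degree at most `Δ`, with a total charge which is not divisible in `Z/q` by the largest power of
the prime `p` dividing `q`, has refutations of polynomial size, with lines of depth at most 2, in a finite sound Frege system with `MOD_p`
connectives. -/
theorem tsg_upp {p : ℕ} (hp : p.Prime) (q : ℕ) (hq : 2 ≤ q) (Δ : ℕ) : ∃ (S : List (Rule p)) (c : ℕ), (∀ R ∈ S, R.Sound) ∧
    ∀ (v : ℕ) (G : SimpleGraph (Fin v)) [DecidableRel G.Adj], (∀ w, G.degree w ≤ Δ) → ∀ σ : Fin v → ZMod q,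
      ¬ ((p ^ q.factorization p : ℕ) : ZMod q) ∣ ∑ w, σ w →
      ∃ π : List (Fm p), Refutes S 2 (tsg G q σ) π ∧ psize π ≤ (v + 2) ^ c := by
  have : Fact p.Prime := ⟨hp⟩
  have : NeZero q := ⟨by omega⟩
  set k := q.factorization p with hk
  have hPq : p ^ k ∣ q := Nat.ordProj_dvd q p
  set J := p ^ k with hJ
  have hJ1 : 1 ≤ J := Nat.one_le_pow _ _ hp.pos
  set a := Δ * q + J with ha
  set K₀ := (J + 1) * (2 ^ (Δ * q) * ((Δ * (q * q) + 1) ^ J * p)) with hK₀
  refine ⟨SysN p (q + Δ) a, (1 + q * q + q ^ Δ + 2 + (2 + 2 * p ^ a) * K₀) * (1 + 2 * (q + Δ) + p ^ a * (1 + a) * K₀) + 2 * (J + 2),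
    sysN_sound hp.two_le _ _, ?_⟩
  intro v G _ hΔ σ hσ
  have hlen : ∀ w, (einc G w).length ≤ Δ := fun w => (einc_deg G w).trans_le (hΔ w)
  set W : List (List ℕ × List ℕ × ℕ) := (List.finRange v).map fun w => ((einc G w).flatMap (cp q), vrs q (einc G w), (σ w).val) with hW
  have hWlen : W.length = v := by rw [hW, List.length_map, List.length_finRange]
  have hWmem : ∀ x ∈ W, ∃ w, x = ((einc G w).flatMap (cp q), vrs q (einc G w), (σ w).val) := by
    intro x hx
    obtain ⟨w, _, rfl⟩ := List.mem_map.1 hx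
    exact ⟨w, rfl⟩
  have hWf : W.flatMap Prod.fst = ((List.finRange v).flatMap (einc G)).flatMap (cp q) := by
    rw [hW, List.flatMap_map, List.flatMap_assoc]
  have hWs : (W.map fun x => x.2.2).sum = ∑ w, (σ w).val := by
    rw [hW, List.map_map, Fin.sum_univ_def]
    rfl
  have hN : ¬ J ∣ ∑ w, (σ w).val := by
    rintro ⟨M, hM⟩
    apply hσ
    have h1 : ((∑ w, (σ w).val : ℕ) : ZMod q) = ∑ w, σ w := by
      rw [Nat.cast_sum]
      exact Finset.sum_congr rfl fun w _ => ZMod.natCast_zmod_val (σ w)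
    rw [← h1, hM, Nat.cast_mul]
    exact dvd_mul_right _ _
  obtain ⟨i, hi, hi'⟩ := choose_top k _ hN
  have hj : p ^ i < J := Nat.pow_lt_pow_right hp.one_lt hi
  have hZV : ∀ x ∈ W, ∀ y ∈ x.1, y ∈ x.2.1 := by
    intro x hx y hy
    obtain ⟨w, rfl⟩ := hWmem x hx
    obtain ⟨e, he, hy⟩ := List.mem_flatMap.1 hy
    obtain ⟨c, hc, rfl⟩ := cp_mem hy
    exact mem_vrs he hc
  have hVlen : ∀ x ∈ W, x.2.1.length ≤ Δ * q := by
    intro x hx
    obtain ⟨w, rfl⟩ := hWmem x hx
    exact (vrs_len q _).trans (Nat.mul_le_mul_right _ (hlen w))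
  have hYlen : (W.flatMap Prod.fst).length ≤ v * Δ * (q * q) := by
    rw [hWf]
    refine (flat_len _ _ _ fun x _ => cp_len x).trans (Nat.mul_le_mul_right _ ?_)
    exact (flat_len _ _ _ fun w _ => hlen w).trans (by rw [List.length_finRange])
  have hcount : ∀ x ∈ W.flatMap Prod.fst, (W.flatMap Prod.fst).count x = q := by
    rw [hWf]
    intro y hy
    obtain ⟨x, hx, hyx⟩ := List.mem_flatMap.1 hy
    obtain ⟨c, hc, rfl⟩ := cp_mem hyx
    have hb := einc_bal G
    rw [cps_count hc, (hb.count hx).1, (hb.count hx).2]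
    omega
  obtain ⟨π, h1, h2⟩ := ns_up (F := tsg G q σ) (w := q + Δ) (a := a) hp.one_lt.le (cert p (p ^ i) W 0) (by
      intro y hy
      obtain ⟨x, hx, h1, h2, _⟩ := cert_mem hj W 0 y hy
      rw [asgB_elen _ _ h1]
      have := hVlen x hx
      omega) (by
      intro y hy
      obtain ⟨x, hx, h1, _, h3⟩ := cert_mem hj W 0 y hy
      obtain ⟨w, rfl⟩ := hWmem x hx
      by_contra hcon
      push Not at hcon
      have hs : ∀ C ∈ tsg G q σ, (∀ l ∈ C, l.1 ∈ vrs q (einc G w)) → ∃ l ∈ C, asgV y.1 l.1 = l.2 := fun C hC hV =>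
        asgB_sat h1 hV (by
          obtain ⟨l, hl, hl'⟩ := hcon C hC
          exact fun hall => hl' (hall l hl))
      have h4 := sat_sum (q := q) (v := asgV y.1) (l := einc G w) (s := σ w) (fun e he C hC => hs C
        (List.mem_append_left _ (List.mem_flatMap.2 ⟨e.1, einc_gedg' G he, hC⟩)) (exone_vrs he hC)) (fun C hC => hs C
        (List.mem_append_right _ (List.mem_flatMap.2 ⟨w, List.mem_finRange w, hC⟩)) (eqc_vrs hC))
      rw [count_map_true] at h4
      apply h3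
      have h5 : ((gA y.1 ((einc G w).flatMap (cp q)) : ℕ) : ZMod q) = (((σ w).val : ℕ) : ZMod q) := by
        rw [ZMod.natCast_zmod_val]
        exact h4
      exact ((ZMod.natCast_eq_natCast_iff _ _ _).1 h5).of_dvd hPq) (by
      intro C hC
      rcases List.mem_append.1 hC with hC | hC
      · obtain ⟨e, _, hC⟩ := List.mem_flatMap.1 hC
        exact (exone_wid hq hC).trans (by omega)
      · obtain ⟨w, _, hC⟩ := List.mem_flatMap.1 hC
        rw [eqc_wid hC]
        exact (hlen w).trans (by omega)) (c := -(((∑ w, (σ w).val).choose (p ^ i) : ℕ) : ZMod p)) (neg_ne_zero.2 hi') (by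
      intro u
      rw [cert_sum u (p ^ i) W 0 hZV, hWs, Nat.zero_add, Nat.zero_add]
      have h3 : (((W.flatMap Prod.fst).countP u).choose (p ^ i) : ZMod p) = ((0 : ℕ).choose (p ^ i) : ℕ) := by
        refine choose_per k _ _ _ ?_ hj
        exact (Nat.modEq_zero_iff_dvd.2 (dvd_countP u _ hcount)).of_dvd hPq
      rw [h3, Nat.choose_eq_zero_of_lt (Nat.pow_pos hp.pos)]
      simp)
  refine ⟨π, h1, h2.trans ?_⟩
  have hF : (tsg G q σ).length ≤ v * v * (1 + q * q) + v * q ^ Δ := by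
    unfold tsg
    rw [List.length_append]
    refine Nat.add_le_add ?_ ?_
    · exact (flat_len _ _ _ fun e _ => exone_len q e).trans (Nat.mul_le_mul_right _ (gedg_len G))
    · refine (flat_len _ _ (q ^ Δ) fun w _ => ?_).trans (by rw [List.length_finRange])
      exact (eqc_len q _ _).trans (Nat.pow_le_pow_right (by omega) (hlen w))
  set X := v + 2 with hX
  have hX1 : 1 ≤ X := by omega
  have hT : (cert p (p ^ i) W 0).length ≤ K₀ * X ^ (J + 1) := by
    refine (cert_len (p ^ i) (Δ * q) (v * Δ * (q * q)) W 0 hVlen hYlen).trans ?_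
    rw [hWlen]
    have e1 : v * Δ * (q * q) + 1 ≤ (Δ * (q * q) + 1) * X := by
      calc v * Δ * (q * q) + 1 = Δ * (q * q) * v + 1 * 1 := by ring
        _ ≤ Δ * (q * q) * X + 1 * X := Nat.add_le_add (Nat.mul_le_mul_left _ (by omega)) (Nat.mul_le_mul_left _ hX1)
        _ = (Δ * (q * q) + 1) * X := by ring
    have e2 : (v * Δ * (q * q) + 1) ^ (p ^ i) ≤ (Δ * (q * q) + 1) ^ J * X ^ J := by
      calc (v * Δ * (q * q) + 1) ^ (p ^ i) ≤ (v * Δ * (q * q) + 1) ^ J := Nat.pow_le_pow_right (by omega) hj.le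
        _ ≤ ((Δ * (q * q) + 1) * X) ^ J := Nat.pow_le_pow_left e1 J
        _ = _ := mul_pow _ _ _
    have e3 : v ≤ X := by omega
    have e4 : p ^ i + 1 ≤ J + 1 := by omega
    calc v * ((p ^ i + 1) * (2 ^ (Δ * q) * ((v * Δ * (q * q) + 1) ^ (p ^ i) * p)))
        ≤ X * ((J + 1) * (2 ^ (Δ * q) * (((Δ * (q * q) + 1) ^ J * X ^ J) * p))) := by gcongr
      _ = K₀ * X ^ (J + 1) := by
        rw [hK₀]
        ring
  set t := (cert p (p ^ i) W 0).length with ht
  have hXJ : X ^ 2 ≤ X ^ (J + 2) := Nat.pow_le_pow_right hX1 (by omega)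
  have hXJ1 : X ^ (J + 1) ≤ X ^ (J + 2) := Nat.pow_le_pow_right hX1 (by omega)
  have hXJ0 : 1 ≤ X ^ (J + 2) := Nat.one_le_pow _ _ hX1
  refine pol_bd' X _ _ _ (J + 2) ?_ (by omega) _ ?_
  · have e1 : v * v ≤ X ^ (J + 2) := le_trans (by rw [hX]; nlinarith) hXJ
    have e2 : v ≤ X ^ (J + 2) := le_trans (by rw [hX]; nlinarith) hXJ
    have e3 : t ≤ K₀ * X ^ (J + 2) := hT.trans (Nat.mul_le_mul_left _ hXJ1)
    calc _ ≤ (v * v * (1 + q * q) + v * q ^ Δ) + 2 + 2 * t + 2 * (t * p ^ a) := by omega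
      _ = v * v * (1 + q * q) + v * q ^ Δ + 2 * 1 + (2 + 2 * p ^ a) * t := by ring
      _ ≤ X ^ (J + 2) * (1 + q * q) + X ^ (J + 2) * q ^ Δ + 2 * X ^ (J + 2) + (2 + 2 * p ^ a) * (K₀ * X ^ (J + 2)) := by gcongr
      _ = (1 + q * q + q ^ Δ + 2 + (2 + 2 * p ^ a) * K₀) * X ^ (J + 2) := by ring
  · have e3 : t ≤ K₀ * X ^ (J + 2) := hT.trans (Nat.mul_le_mul_left _ hXJ1)
    calc 1 + 2 * (q + Δ) + t * p ^ a * (1 + a) = (1 + 2 * (q + Δ)) * 1 + p ^ a * (1 + a) * t := by ring
      _ ≤ (1 + 2 * (q + Δ)) * X ^ (J + 2) + p ^ a * (1 + a) * (K₀ * X ^ (J + 2)) := by gcongr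
      _ = (1 + 2 * (q + Δ) + p ^ a * (1 + a) * K₀) * X ^ (J + 2) := by ring

end PPh.TU
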