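import Pool.Agent.H85.GT.NsGen

/-!
helper85: Nullstellensatz refutations over `F_p` of constant degree give short refutations in Frege systems with `MOD_p`: main theorem.
-/

set_option autoImplicit false
open Finset

namespace PPh.TU

open ACpFrege ACpB ACpSep PPh

variable {p : ℕ} {F : CNF} {B k : ℕ} {T : Set (Fm p)} {w a : ℕ}

theorem dn_sum (Tm : List (List Lit × List ℕ)) :
    (∀ x ∈ Tm, ∃ C : List Lit, clauseFm C ∈ T ∧ C.length ≤ w ∧ ∀ l ∈ C, (l.1, !l.2) ∈ x.1) → (∀ x ∈ Tm, x.1.length + x.2.length ≤ a) →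
    1 + (Tm.flatMap fun x => expd p x.1 x.2).length * (1 + a) ≤ B → Dv (SysN p w a) F 2 B k T →
    Dv (SysN p w a) F 2 B (k + 1 + 2 * Tm.length) (insert (ml p (Tm.flatMap fun x => expd p x.1 x.2)) T) := by
  induction Tm using List.reverseRecOn with
  | nil =>
    intro _ _ hB h
    have h1 := h.step sn_emp (ml_depth _) (by
      rw [ml_size]
      simpa using hB)
    exact h1.mono (by omega) subset_rfl
  | append_singleton Tm x ih =>
    intro hx ha hB h
    have hwid : ∀ C ∈ (Tm ++ [x]).flatMap fun x => expd p x.1 x.2, C.length ≤ a := by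
      intro C hC
      obtain ⟨y, hy, hC⟩ := List.mem_flatMap.1 hC
      exact (expd_wid _ _ C hC).trans (ha y hy)
    have e1 : (Tm ++ [x]).flatMap (fun x => expd p x.1 x.2) = Tm.flatMap (fun x => expd p x.1 x.2) ++ expd p x.1 x.2 := by simp
    rw [e1] at hwid hB ⊢
    rw [List.length_append] at hB
    have hB1 : 1 + (Tm.flatMap fun x => expd p x.1 x.2).length * (1 + a) ≤ B := by
      have : (Tm.flatMap fun x => expd p x.1 x.2).length * (1 + a) ≤
          ((Tm.flatMap fun x => expd p x.1 x.2).length + (expd p x.1 x.2).length) * (1 + a) := Nat.mul_le_mul_right _ (by omega)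
      omega
    have hB2 : 1 + (expd p x.1 x.2).length * (1 + a) ≤ B := by
      have : (expd p x.1 x.2).length * (1 + a) ≤
          ((Tm.flatMap fun x => expd p x.1 x.2).length + (expd p x.1 x.2).length) * (1 + a) := Nat.mul_le_mul_right _ (by omega)
      omega
    have h1 := ih (fun y hy => hx y (List.mem_append_left _ hy)) (fun y hy => ha y (List.mem_append_left _ hy)) hB1 h
    obtain ⟨C, hC1, hC2, hC3⟩ := hx x (by simp)
    have h2 := h1.step (sn_R hC2 (ha x (by simp)) hC3 (Set.mem_insert_of_mem _ hC1)) (ml_depth _)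
      ((ml_size_le fun D hD => hwid D (List.mem_append_right _ hD)).trans hB2)
    have h3 := h2.step (sn_cat (Tm.flatMap fun x => expd p x.1 x.2) (expd p x.1 x.2) (Set.mem_insert_of_mem _ (Set.mem_insert _ _))
      (Set.mem_insert _ _)) (ml_depth _) ((ml_size_le hwid).trans (by rw [List.length_append]; exact hB))
    refine h3.mono (by rw [List.length_append, List.length_singleton]; omega) ?_
    intro A hA
    rcases Set.mem_insert_iff.1 hA with h4 | h4
    · rw [h4]
      exact Set.mem_insert _ _
    · exact Set.mem_insert_of_mem _ (Set.mem_insert_of_mem _ (Set.mem_insert_of_mem _ h4))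

theorem sum_pval (hp : 1 ≤ p) (v : ℕ → Bool) (Tm : List (List Lit × List ℕ)) :
    (((((Tm.flatMap fun x => expd p x.1 x.2).map fun C => C.all v).count true : ℕ)) : ZMod p) =
      (Tm.map fun x => if pval v x.1 x.2 then (1 : ZMod p) else 0).sum := by
  induction Tm with
  | nil => simp
  | cons x Tm ih =>
    rw [List.flatMap_cons, List.map_append, List.count_append, Nat.cast_add, ih, expd_count hp, List.map_cons, List.sum_cons]

/-- A Nullstellensatz refutation over `Z/p` gives a refutation in the system `SysN`: `Tm` is a list of products of literals and variables, each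
of which contains the negations of all literals of a clause, and the sum of the products is a nonzero constant modulo `p` on all Boolean
assignments. -/
theorem ns_up (hp : 1 ≤ p) (Tm : List (List Lit × List ℕ)) (ha : ∀ x ∈ Tm, x.1.length + x.2.length ≤ a)
    (hC : ∀ x ∈ Tm, ∃ C ∈ F, ∀ l ∈ C, (l.1, !l.2) ∈ x.1) (hw : ∀ C ∈ F, C.length ≤ w) {c : ZMod p} (hc : c ≠ 0)
    (hid : ∀ v : ℕ → Bool, (Tm.map fun x => if pval v x.1 x.2 then (1 : ZMod p) else 0).sum = c) :
    ∃ π : List (Fm p), Refutes (SysN p w a) 2 F π ∧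
      psize π ≤ (F.length + 2 + 2 * Tm.length + 2 * (Tm.length * p ^ a)) * (1 + 2 * w + Tm.length * p ^ a * (1 + a)) := by
  set L := Tm.flatMap fun x => expd p x.1 x.2 with hL
  have hLlen : L.length ≤ Tm.length * p ^ a := by
    refine flat_len _ _ _ fun x hx => (expd_len hp x.1 x.2).trans (Nat.pow_le_pow_right hp ?_)
    have := ha x hx
    omega
  have hLwid : ∀ C ∈ L, C.length ≤ a := by
    intro C hC
    obtain ⟨y, hy, hC⟩ := List.mem_flatMap.1 hC
    exact (expd_wid _ _ C hC).trans (ha y hy)
  set B := 1 + 2 * w + Tm.length * p ^ a * (1 + a) with hB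
  have hLB : 1 + L.length * (1 + a) ≤ B := by
    have : L.length * (1 + a) ≤ Tm.length * p ^ a * (1 + a) := Nat.mul_le_mul_right _ hLlen
    omega
  have h0 : Dv (SysN p w a) F 2 B F.length {A | ∃ C ∈ F, A = clauseFm C} := by
    refine dv_clauses le_rfl fun C hC => ?_
    have := hw C hC
    omega
  have h1 := dn_sum Tm (fun x hx => by
    obtain ⟨C, h2, h3⟩ := hC x hx
    exact ⟨C, ⟨C, h2, rfl⟩, hw C h2, h3⟩) ha hLB h0
  have h2 := dn_norm L [] _ (by simpa using hLwid) (by simpa using hLB) h1
  rw [List.nil_append] at h2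
  have hcnt : ∀ A : Finset ℕ, ((((L.map List.toFinset).map fun S => decide (S ⊆ A)).count true : ℕ) : ZMod p) = c := by
    intro A
    have h3 := sum_pval hp (fun x => decide (x ∈ A)) Tm
    rw [hid] at h3
    rw [← h3, List.map_map]
    congr 2
    refine List.map_congr_left fun C _ => ?_
    simp only [Function.comp_apply]
    rw [Bool.eq_iff_iff, decide_eq_true_eq, List.all_eq_true]
    constructor
    · intro h4 x hx
      exact decide_eq_true (h4 (List.mem_toFinset.2 hx))
    · intro h4 x hx
      exact of_decide_eq_true (h4 x (List.mem_toFinset.1 hx))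
  obtain ⟨hc0, hcS⟩ := counts_of _ hcnt
  have h3 := dn_red hp (L.map nf).length (L.map nf) le_rfl (by
    intro C hC
    obtain ⟨D, hD, rfl⟩ := List.mem_map.1 hC
    exact (nf_len D).trans (hLwid D hD)) (by rw [List.length_map]; exact hLB) (by
    intro C hC hne
    obtain ⟨D, hD, rfl⟩ := List.mem_map.1 hC
    unfold nf at hne ⊢
    have h4 : D.toFinset ≠ ∅ := fun h => hne (by rw [h, Finset.toList_empty])
    have h5 := hcS _ h4
    rw [ZMod.natCast_eq_zero_iff, ← nf_count] at h5
    exact h5) (by
    intro h4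
    have h5 := nf_count L ∅
    rw [Finset.toList_empty] at h5
    rw [h5, ← ZMod.natCast_eq_zero_iff, hc0] at h4
    exact hc h4) _ h2
  obtain ⟨π, h4, h5⟩ := h3.refutes (Set.mem_insert _ _)
  refine ⟨π, h4, h5.trans (Nat.mul_le_mul_right _ ?_)⟩
  rw [List.length_map]
  omega

end PPh.TU
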