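import Pool.Agent.H85.GT.Ren
import Pool.Agent.H85.GT.Gen

/-!
helper85: Nullstellensatz refutations over `F_p` of constant degree give short refutations in Frege systems with `MOD_p`: the rules.
-/

set_option autoImplicit false
open Finset

namespace PPh.TU

open ACpFrege ACpB ACpSep PPh

/-- The conjunction of the variables in a list. -/
def cj (p : ℕ) (C : List ℕ) : Fm p := cnL false (C.map Fm.var)

/-- The conjunction of a list of schemes. -/
def anS {p : ℕ} (l : List (Sch p)) : Sch p := .cn false l.length l.get

/-- The conjunction of metavariables. -/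
def cjS (p : ℕ) (C : List ℕ) : Sch p := anS (C.map Sch.mv)

/-- The monomials (with multiplicities modulo `p`) of the product of the literals in `A` and the variables in `m`. -/
def expd (p : ℕ) : List Lit → List ℕ → List (List ℕ)
  | [], m => [m]
  | (x, true) :: A, m => expd p A (x :: m)
  | (x, false) :: A, m => expd p A m ++ (List.replicate (p - 1) (expd p A (x :: m))).flatten

/-- All lists of length at most `n` with members in `l`. -/
def lsts {α : Type} (l : List α) : ℕ → List (List α)
  | 0 => [[]]
  | n + 1 => [] :: l.flatMap fun a => (lsts l n).map fun t => a :: t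

theorem mem_lsts {α : Type} (l : List α) : ∀ (n : ℕ) (t : List α), t.length ≤ n → (∀ a ∈ t, a ∈ l) → t ∈ lsts l n := by
  intro n
  induction n with
  | zero =>
    intro t ht _
    have : t = [] := List.length_eq_zero_iff.1 (by omega)
    subst this
    simp [lsts]
  | succ n ih =>
    intro t ht hl
    unfold lsts
    cases t with
    | nil => exact List.mem_cons_self
    | cons a t =>
      rw [List.length_cons] at ht
      exact List.mem_cons_of_mem _ (List.mem_flatMap.2 ⟨a, hl a List.mem_cons_self, List.mem_map.2 ⟨t, ih t (by omega) fun b hb =>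
        hl b (List.mem_cons_of_mem _ hb), rfl⟩⟩)

/-- The literals over the first `b` metavariables. -/
def lits (b : ℕ) : List Lit := (List.range b).flatMap fun i => [(i, true), (i, false)]

theorem mem_lits {b : ℕ} {l : Lit} (h : l.1 < b) : l ∈ lits b := by
  unfold lits
  refine List.mem_flatMap.2 ⟨l.1, List.mem_range.2 h, ?_⟩
  obtain ⟨x, s⟩ := l
  cases s <;> simp

/-- From the clause `C` infer that a product which contains the negations of its literals vanishes. -/
def nR (p : ℕ) (C A : List Lit) (m : List ℕ) : Rule p := ⟨[clS C], mdS 0 ((expd p A m).map (cjS p))⟩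

/-- Replace a conjunction by a conjunction with the same members. -/
def nN (p : ℕ) (C C' : List ℕ) : Rule p := ⟨[mdS 0 [.sq 0, cjS p C, .sq 1]], mdS 0 [.sq 0, cjS p C', .sq 1]⟩

/-- Remove `p` copies of a formula. -/
def nRem (p : ℕ) : Rule p :=
  ⟨[mdS 0 (.sq p :: (List.range p).flatMap fun j => [.mv 0, .sq j])], mdS 0 (.sq p :: (List.range p).map fun j => .sq j)⟩

/-- A number of empty conjunctions which is not divisible by `p`. -/
def nBot (p c : ℕ) : Rule p := ⟨[mdS 0 (List.replicate c (anS []))], .cn true 0 fun i => i.elim0⟩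

/-- The system. -/
def SysN (p w a : ℕ) : List (Rule p) :=
  [cEmp p, rSum p 0 0, nRem p] ++ ((List.range p).filter fun c => c ≠ 0).map (nBot p) ++
    ((lsts (lits a) w).flatMap fun C => (lsts (lits a) a).flatMap fun A =>
      if ∀ l ∈ C, (l.1, !l.2) ∈ A then (lsts (List.range a) a).map fun m => nR p C A m else []) ++
    (lsts (List.range a) a).flatMap fun C => ((lsts (List.range a) a).filter fun C' => (∀ x ∈ C, x ∈ C') ∧ ∀ x ∈ C', x ∈ C).map (nN p C)

/-! ### Soundness -/

variable {p : ℕ}

theorem ev_anS (v : ℕ → Bool) (w : ℕ → List Bool) (l : List (Sch p)) :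
    (anS l).ev v w = [(l.flatMap (Sch.ev v w)).all id] := by
  unfold anS
  rw [Sch.ev, List.flatMap_def]
  congr 3
  exact ofFn_get_map l (Sch.ev v w)

theorem ev_cjS (v : ℕ → Bool) (w : ℕ → List Bool) (C : List ℕ) : (cjS p C).ev v w = [C.all v] := by
  unfold cjS
  rw [ev_anS, ev_mvs, List.all_map]
  rfl

theorem ev_cjSs (v : ℕ → Bool) (w : ℕ → List Bool) (L : List (List ℕ)) :
    (L.map (cjS p)).flatMap (Sch.ev v w) = L.map fun C => C.all v := by
  induction L with
  | nil => rfl
  | cons a L ih =>
    rw [List.map_cons, List.flatMap_cons, ih, ev_cjS, List.map_cons]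
    rfl

/-- The value of the product of literals and variables. -/
def pval (v : ℕ → Bool) (A : List Lit) (m : List ℕ) : Bool := (A.all fun l => v l.1 == l.2) && m.all v

theorem count_rep_flat (f : List ℕ → Bool) (n : ℕ) (L : List (List ℕ)) :
    (((List.replicate n L).flatten).map f).count true = n * (L.map f).count true := by
  induction n with
  | zero => simp
  | succ n ih =>
    rw [List.replicate_succ, List.flatten_cons, List.map_append, List.count_append, ih]
    ring

/-- The expansion has the right value modulo `p`. -/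
theorem expd_count (hp : 1 ≤ p) (v : ℕ → Bool) : ∀ (A : List Lit) (m : List ℕ),
    ((((expd p A m).map fun C => C.all v).count true : ℕ) : ZMod p) = if pval v A m then 1 else 0 := by
  intro A
  induction A with
  | nil =>
    intro m
    unfold expd pval
    cases h : m.all v <;> simp [h]
  | cons l A ih =>
    intro m
    obtain ⟨x, s⟩ := l
    cases s
    · unfold expd
      rw [List.map_append, List.count_append, count_rep_flat, Nat.cast_add, Nat.cast_mul, ih, ih, Nat.cast_sub hp]
      unfold pval
      cases h1 : v x <;> cases h2 : (A.all fun l => v l.1 == l.2) <;> cases h3 : m.all v <;> simp [h1, h2, h3]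
    · unfold expd
      rw [ih]
      unfold pval
      cases h1 : v x <;> cases h2 : (A.all fun l => v l.1 == l.2) <;> cases h3 : m.all v <;> simp [h1, h2, h3]

theorem nR_sound (hp : 1 ≤ p) {C A : List Lit} {m : List ℕ} (h : ∀ l ∈ C, (l.1, !l.2) ∈ A) : (nR p C A m).Sound := by
  intro v w hprem b hb
  unfold nR at hprem hb
  have hsat : SatBy v [C] := sat_of_prem (q := p) (w := w) (by simpa using hprem)
  obtain ⟨l, hl, hl'⟩ := hsat C (List.mem_singleton_self _)
  simp only [ev_mdS, List.mem_singleton] at hb
  rw [hb, decide_eq_true_eq, ev_cjSs, expd_count hp]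
  rw [if_neg]
  unfold pval
  intro hh
  rw [Bool.and_eq_true, List.all_eq_true] at hh
  have h1 := hh.1 _ (h l hl)
  simp only [beq_iff_eq] at h1
  rw [hl'] at h1
  cases h2 : l.2 <;> rw [h2] at h1 <;> exact absurd h1 (by simp)

theorem nN_sound {C C' : List ℕ} (h : (∀ x ∈ C, x ∈ C') ∧ ∀ x ∈ C', x ∈ C) : (nN p C C').Sound := by
  intro v w hprem b hb
  have hall : C.all v = C'.all v := by
    rw [Bool.eq_iff_iff, List.all_eq_true, List.all_eq_true]
    exact ⟨fun h1 x hx => h1 x (h.2 x hx), fun h1 x hx => h1 x (h.1 x hx)⟩
  simp only [nN, List.mem_singleton, forall_eq, ev_mdS, List.flatMap_cons, List.flatMap_nil, Sch.ev, ev_cjS] at hprem hb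
  rw [hb]
  rw [hall] at hprem
  exact hprem

theorem nRem_sound : (nRem p).Sound := by
  intro v w h b hb
  simp only [nRem, List.mem_cons, List.not_mem_nil, or_false, forall_eq, ev_mdS, decide_eq_true_eq] at h hb
  rw [hb, decide_eq_true_eq, ← h]
  have h1 : ∀ l : List ℕ, ((((l.map fun j => (Sch.sq j : Sch p)).flatMap (Sch.ev v w)).count true : ℕ) : ZMod p) +
      (l.length : ZMod p) * (if v 0 then 1 else 0) =
      ((((l.flatMap fun j => [(Sch.mv 0 : Sch p), Sch.sq j]).flatMap (Sch.ev v w)).count true : ℕ) : ZMod p) := by
    intro l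
    induction l with
    | nil => simp
    | cons a l ih =>
      rw [List.map_cons, List.flatMap_cons, List.flatMap_cons, List.flatMap_append, List.count_append, List.count_append,
        Nat.cast_add, Nat.cast_add, ← ih, List.flatMap_cons, List.flatMap_cons, List.flatMap_nil, List.append_nil,
        List.count_append, Sch.ev, Sch.ev, List.length_cons]
      cases h0 : v 0 <;> simp <;> ring
  rw [List.flatMap_cons, List.flatMap_cons, List.count_append, List.count_append, Nat.cast_add, Nat.cast_add, ← h1, List.length_range]
  simp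

theorem nBot_sound {c : ℕ} (hc : c < p) (h0 : c ≠ 0) : (nBot p c).Sound := by
  intro v w h b hb
  exfalso
  simp only [nBot, List.mem_cons, List.not_mem_nil, or_false, forall_eq, ev_mdS] at h
  have h1 : ∀ n : ℕ, ((List.replicate n (anS [] : Sch p)).flatMap (Sch.ev v w)) = List.replicate n true := by
    intro n
    induction n with
    | zero => rfl
    | succ n ih =>
      rw [List.replicate_succ, List.flatMap_cons, ih, ev_anS, List.replicate_succ]
      rfl
  rw [h1, List.count_replicate_self] at h
  have h2 : (c : ZMod p) = 0 := by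
    by_contra hne
    rw [decide_eq_false hne] at h
    exact absurd h (by simp)
  rw [ZMod.natCast_eq_zero_iff] at h2
  exact h0 (Nat.eq_zero_of_dvd_of_lt h2 hc)

theorem sysN_sound (hp : 2 ≤ p) (w a : ℕ) : ∀ R ∈ SysN p w a, R.Sound := by
  intro R hR
  have hC := soundC p hp
  unfold SysC at hC
  unfold SysN at hR
  simp only [List.mem_append, List.mem_cons, List.not_mem_nil, or_false, List.mem_flatMap, List.mem_map, List.mem_filter] at hR
  rcases hR with (((rfl | rfl | rfl) | ⟨c, hc, rfl⟩) | ⟨C, _, A, _, hR⟩) | ⟨C, _, C', ⟨_, hC'⟩, rfl⟩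
  · exact hC _ (by simp)
  · exact sum_sound 0 0
  · exact nRem_sound
  · exact nBot_sound (List.mem_range.1 hc.1) (by simpa using hc.2)
  · split_ifs at hR with hCA
    · obtain ⟨m, _, rfl⟩ := List.mem_map.1 hR
      exact nR_sound (by omega) hCA
    · exact absurd hR (by simp)
  · exact nN_sound (by simpa using hC')

end PPh.TU
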