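import Pool.Agent.H85.GT.NsMain

/-!
helper85: Nullstellensatz refutations over `F_p` of counting contradictions modulo prime powers `p^k`, with binomial coefficients.
-/

set_option autoImplicit false
open Finset

namespace PPh.TU

open ACpFrege ACpB ACpSep PPh

/-! ### Binomial coefficients modulo `p` -/

/-- Binomial coefficients `C(a, i)` with `i < p^k` depend modulo `p` only on `a` modulo `p^k`. -/
theorem choose_per {p : ℕ} [Fact p.Prime] : ∀ (k a b i : ℕ), a ≡ b [MOD p ^ k] → i < p ^ k →
    ((a.choose i : ℕ) : ZMod p) = ((b.choose i : ℕ) : ZMod p) := by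
  intro k
  induction k with
  | zero =>
    intro a b i _ hi
    rw [pow_zero] at hi
    have : i = 0 := by omega
    subst this
    simp
  | succ k ih =>
    intro a b i hab hi
    have hp := (Fact.out : p.Prime).pos
    have key : ∀ n : ℕ, ((n.choose i : ℕ) : ZMod p) = (((n % p).choose (i % p) : ℕ) : ZMod p) * (((n / p).choose (i / p) : ℕ) : ZMod p) := by
      intro n
      rw [← Nat.cast_mul]
      exact (ZMod.natCast_eq_natCast_iff _ _ _).2 Choose.choose_modEq_choose_mod_mul_choose_div_nat
    have h1 : a % p = b % p := hab.of_dvd (dvd_pow_self p (by omega))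
    have h2 : a / p ≡ b / p [MOD p ^ k] := by
      have h3 : a % (p * p ^ k) = b % (p * p ^ k) := by rwa [← pow_succ']
      unfold Nat.ModEq
      rw [← Nat.mod_mul_right_div_self, ← Nat.mod_mul_right_div_self, h3]
    have h4 : i / p < p ^ k := Nat.div_lt_of_lt_mul (by rwa [← pow_succ'])
    rw [key a, key b, h1, ih _ _ _ h2 h4]

theorem choose_top {p : ℕ} [Fact p.Prime] : ∀ (k N : ℕ), ¬ p ^ k ∣ N → ∃ i < k, ((N.choose (p ^ i) : ℕ) : ZMod p) ≠ 0 := by
  intro k
  induction k with
  | zero =>
    intro N h
    exact absurd (one_dvd N) (by rwa [pow_zero] at h)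
  | succ k ih =>
    intro N h
    have hp := (Fact.out : p.Prime)
    by_cases hN : p ∣ N
    · obtain ⟨M, rfl⟩ := hN
      have h1 : ¬ p ^ k ∣ M := fun h2 => h (by rw [pow_succ']; exact Nat.mul_dvd_mul_left p h2)
      obtain ⟨i, hi, hi'⟩ := ih M h1
      refine ⟨i + 1, by omega, ?_⟩
      have h2 : (((p * M).choose (p ^ (i + 1)) : ℕ) : ZMod p) = ((((p * M) % p).choose (p ^ (i + 1) % p) * ((p * M) / p).choose (p ^ (i + 1) / p) : ℕ) : ZMod p) :=
        (ZMod.natCast_eq_natCast_iff _ _ _).2 Choose.choose_modEq_choose_mod_mul_choose_div_nat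
      rw [h2, Nat.mul_mod_right, pow_succ', Nat.mul_mod_right, Nat.mul_div_cancel_left _ hp.pos, Nat.mul_div_cancel_left _ hp.pos]
      simpa using hi'
    · refine ⟨0, by omega, ?_⟩
      rw [pow_zero, Nat.choose_one_right]
      intro h1
      exact hN ((ZMod.natCast_eq_zero_iff N p).1 h1)

/-! ### The certificate -/

/-- All sign patterns on a list of variables. -/
def asgB : List ℕ → List (List Lit)
  | [] => [[]]
  | x :: V => (asgB V).flatMap fun A => [(x, true) :: A, (x, false) :: A]

theorem asgB_len : ∀ V : List ℕ, (asgB V).length = 2 ^ V.length := by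
  intro V
  induction V with
  | nil => simp [asgB]
  | cons x V ih =>
    rw [asgB, List.length_flatMap]
    simp only [List.length_cons, List.length_nil]
    rw [List.map_const', List.sum_replicate, ih, smul_eq_mul, pow_succ]

theorem asgB_elen : ∀ V : List ℕ, ∀ A ∈ asgB V, A.length = V.length := by
  intro V
  induction V with
  | nil =>
    intro A hA
    simp only [asgB, List.mem_singleton] at hA
    rw [hA]
    rfl
  | cons x V ih =>
    intro A hA
    rw [asgB, List.mem_flatMap] at hA
    obtain ⟨A', hA', hA⟩ := hA
    simp only [List.mem_cons, List.not_mem_nil, or_false] at hA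
    rcases hA with rfl | rfl
    · rw [List.length_cons, List.length_cons, ih A' hA']
    · rw [List.length_cons, List.length_cons, ih A' hA']

theorem asgB_mem : ∀ V : List ℕ, ∀ A ∈ asgB V, ∀ x ∈ V, (x, true) ∈ A ∨ (x, false) ∈ A := by
  intro V
  induction V with
  | nil =>
    intro A _ x hx
    exact absurd hx (by simp)
  | cons y V ih =>
    intro A hA x hx
    rw [asgB, List.mem_flatMap] at hA
    obtain ⟨A', hA', hA⟩ := hA
    simp only [List.mem_cons, List.not_mem_nil, or_false] at hA hx
    rcases hx with rfl | hx
    · rcases hA with rfl | rfl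
      · exact Or.inl List.mem_cons_self
      · exact Or.inr List.mem_cons_self
    · rcases hA with rfl | rfl
      · exact (ih A' hA' x hx).imp (List.mem_cons_of_mem _) (List.mem_cons_of_mem _)
      · exact (ih A' hA' x hx).imp (List.mem_cons_of_mem _) (List.mem_cons_of_mem _)

/-- The value of the sign pattern as an assignment. -/
def asgV (A : List Lit) (x : ℕ) : Bool := decide ((x, true) ∈ A)

/-- A sign pattern which does not contain the negations of all literals of a clause satisfies the clause. -/
theorem asgB_sat {V : List ℕ} {A : List Lit} (hA : A ∈ asgB V) {C : List Lit} (hC : ∀ l ∈ C, l.1 ∈ V)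
    (h : ¬ ∀ l ∈ C, (l.1, !l.2) ∈ A) : ∃ l ∈ C, asgV A l.1 = l.2 := by
  push Not at h
  obtain ⟨l, hl, hn⟩ := h
  refine ⟨l, hl, ?_⟩
  obtain ⟨x, s⟩ := l
  have h1 := asgB_mem V A hA x (hC _ hl)
  unfold asgV
  cases s
  · simp only [Bool.not_false] at hn
    simp [hn]
  · simp only [Bool.not_true] at hn
    rcases h1 with h1 | h1
    · simp [h1]
    · exact absurd h1 hn

section
variable {R : Type} [CommRing R]

theorem sum_replicate_if (n : ℕ) (b : Bool) : ((List.replicate n ()).map fun _ => if b then (1 : R) else 0).sum = if b then (n : R) else 0 := by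
  rw [List.map_replicate, List.sum_replicate, nsmul_eq_mul]
  split_ifs <;> simp

theorem asgB_sum (v : ℕ → Bool) : ∀ (V : List ℕ) (φ : List Lit → R),
    ((asgB V).map fun A => if (A.all fun l => v l.1 == l.2) then φ A else 0).sum = φ (V.map fun x => (x, v x)) := by
  intro V
  induction V with
  | nil => intro φ; simp [asgB]
  | cons x V ih =>
    intro φ
    have h1 : ∀ l : List (List Lit), ((l.flatMap fun A => [(x, true) :: A, (x, false) :: A]).map fun A =>
        if (A.all fun l => v l.1 == l.2) then φ A else 0).sum =
        (l.map fun A => if (A.all fun l => v l.1 == l.2) then φ ((x, v x) :: A) else 0).sum := by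
      intro l
      induction l with
      | nil => simp
      | cons A l ihl =>
        rw [List.flatMap_cons, List.map_append, List.sum_append, ihl, List.map_cons, List.sum_cons]
        congr 1
        simp only [List.map_cons, List.map_nil, List.sum_cons, List.sum_nil, List.all_cons]
        rcases Bool.eq_false_or_eq_true (v x) with hv | hv
        · have e1 : (v x == true) = true := by rw [hv]; rfl
          have e2 : (v x == false) = false := by rw [hv]; rfl
          simp only [e1, e2, Bool.true_and, Bool.false_and]
          rw [hv]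
          simp
        · have e1 : (v x == true) = false := by rw [hv]; rfl
          have e2 : (v x == false) = true := by rw [hv]; rfl
          simp only [e1, e2, Bool.true_and, Bool.false_and]
          rw [hv]
          simp
    rw [asgB, h1, ih fun A => φ ((x, v x) :: A), List.map_cons]

theorem subl_sum (v : ℕ → Bool) (c : R) : ∀ (Y : List ℕ) (n : ℕ),
    ((List.sublistsLen n Y).map fun m => if m.all v then c else 0).sum = c * ((Y.countP v).choose n : ℕ) := by
  intro Y
  induction Y with
  | nil =>
    intro n
    cases n with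
    | zero => simp
    | succ n => simp
  | cons y Y ih =>
    intro n
    cases n with
    | zero => simp
    | succ n =>
      rw [List.sublistsLen_succ_cons, List.map_append, List.sum_append, ih, List.map_map, List.countP_cons]
      cases hv : v y
      · have h1 : ((fun m : List ℕ => if m.all v then c else 0) ∘ List.cons y) = fun _ => 0 := by
          funext m
          simp [hv]
        rw [h1]
        simp
      · have h1 : ((fun m : List ℕ => if m.all v then c else 0) ∘ List.cons y) = fun m => if m.all v then c else 0 := by
          funext m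
          simp [hv]
        rw [h1, ih]
        simp only [if_true]
        rw [Nat.choose_succ_succ]
        push_cast
        ring

end

variable {p : ℕ}

/-- The number of true copies under a sign pattern. -/
def gA (A : List Lit) (Z : List ℕ) : ℕ := Z.countP (asgV A)

/-- The coefficient of a sign pattern. -/
def coef (p j a S s : ℕ) (A : List Lit) (Z : List ℕ) : ZMod p :=
  (((S + gA A Z).choose (j - a) : ℕ) : ZMod p) - (((S + s).choose (j - a) : ℕ) : ZMod p)

/-- The terms of a vertex: `V` the variables, `Z` the copies, `s` the charge, `S` the sum of the previous charges, `Y` the later copies. -/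
def loc (p j : ℕ) (Z V : List ℕ) (s S : ℕ) (Y : List ℕ) : List (List Lit × List ℕ) :=
  (List.range (j + 1)).flatMap fun a => (asgB V).flatMap fun A => (List.sublistsLen a Y).flatMap fun m =>
    List.replicate (coef p j a S s A Z).val (A, m)

/-- The certificate. -/
def cert (p j : ℕ) : List (List ℕ × List ℕ × ℕ) → ℕ → List (List Lit × List ℕ)
  | [], _ => []
  | x :: W, S => loc p j x.1 x.2.1 x.2.2 S (W.flatMap Prod.fst) ++ cert p j W (S + x.2.2)

theorem loc_sum [NeZero p] (v : ℕ → Bool) (j : ℕ) (Z V : List ℕ) (s S : ℕ) (Y : List ℕ) (hZ : ∀ x ∈ Z, x ∈ V) :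
    ((loc p j Z V s S Y).map fun x => if pval v x.1 x.2 then (1 : ZMod p) else 0).sum =
      (((S + Z.countP v + Y.countP v).choose j : ℕ) : ZMod p) - (((S + s + Y.countP v).choose j : ℕ) : ZMod p) := by
  have hg : gA (V.map fun x => (x, v x)) Z = Z.countP v := by
    unfold gA
    refine List.countP_congr fun x hx => ?_
    unfold asgV
    rw [decide_eq_true_eq, List.mem_map]
    constructor
    · rintro ⟨y, _, hy⟩
      have h1 := (Prod.ext_iff.1 hy).1
      have h2 := (Prod.ext_iff.1 hy).2
      simp only at h1 h2
      rw [← h1, h2]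
    · intro hv
      exact ⟨x, hZ x hx, by rw [hv]⟩
  have h1 : ∀ (a : ℕ) (A : List Lit), (((List.sublistsLen a Y).flatMap fun m => List.replicate (coef p j a S s A Z).val (A, m)).map
      fun x => if pval v x.1 x.2 then (1 : ZMod p) else 0).sum =
      if (A.all fun l => v l.1 == l.2) then coef p j a S s A Z * (((Y.countP v).choose a : ℕ) : ZMod p) else 0 := by
    intro a A
    rw [← subl_sum v (coef p j a S s A Z) Y a]
    have h2 : ∀ l : List (List ℕ), ((l.flatMap fun m => List.replicate (coef p j a S s A Z).val (A, m)).map
        fun x => if pval v x.1 x.2 then (1 : ZMod p) else 0).sum =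
        if (A.all fun l => v l.1 == l.2) then (l.map fun m => if m.all v then coef p j a S s A Z else 0).sum else 0 := by
      intro l
      induction l with
      | nil => simp
      | cons m l ih =>
        rw [List.flatMap_cons, List.map_append, List.sum_append, ih, List.map_cons, List.sum_cons, List.map_replicate,
          List.sum_replicate, nsmul_eq_mul, ZMod.natCast_zmod_val]
        unfold pval
        cases h3 : (A.all fun l => v l.1 == l.2) <;> cases h4 : m.all v <;> simp [h4]
    exact h2 _
  have h2 : ∀ a : ℕ, (((asgB V).flatMap fun A => (List.sublistsLen a Y).flatMap fun m => List.replicate (coef p j a S s A Z).val (A, m)).map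
      fun x => if pval v x.1 x.2 then (1 : ZMod p) else 0).sum =
      coef p j a S s (V.map fun x => (x, v x)) Z * (((Y.countP v).choose a : ℕ) : ZMod p) := by
    intro a
    rw [← asgB_sum v V fun A => coef p j a S s A Z * (((Y.countP v).choose a : ℕ) : ZMod p)]
    have h3 : ∀ l : List (List Lit), ((l.flatMap fun A => (List.sublistsLen a Y).flatMap fun m =>
        List.replicate (coef p j a S s A Z).val (A, m)).map fun x => if pval v x.1 x.2 then (1 : ZMod p) else 0).sum =
        (l.map fun A => if (A.all fun l => v l.1 == l.2) then coef p j a S s A Z * (((Y.countP v).choose a : ℕ) : ZMod p) else 0).sum := by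
      intro l
      induction l with
      | nil => simp
      | cons A l ih => rw [List.flatMap_cons, List.map_append, List.sum_append, ih, List.map_cons, List.sum_cons, h1]
    exact h3 _
  have h3 : ∀ n : ℕ, (((List.range n).flatMap fun a => (asgB V).flatMap fun A => (List.sublistsLen a Y).flatMap fun m =>
      List.replicate (coef p j a S s A Z).val (A, m)).map fun x => if pval v x.1 x.2 then (1 : ZMod p) else 0).sum =
      ∑ a ∈ range n, coef p j a S s (V.map fun x => (x, v x)) Z * (((Y.countP v).choose a : ℕ) : ZMod p) := by
    intro n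
    induction n with
    | zero => simp
    | succ n ih =>
      rw [List.range_succ, List.flatMap_append, List.map_append, List.sum_append, ih, List.flatMap_singleton, h2, Finset.sum_range_succ]
  unfold loc
  rw [h3]
  have h4 : ∀ t y : ℕ, (((t + y).choose j : ℕ) : ZMod p) = ∑ a ∈ range (j + 1), ((t.choose (j - a) : ℕ) : ZMod p) * ((y.choose a : ℕ) : ZMod p) := by
    intro t y
    rw [Nat.add_comm t y, Nat.add_choose_eq, Finset.Nat.sum_antidiagonal_eq_sum_range_succ fun a b => y.choose a * t.choose b]
    push_cast
    exact Finset.sum_congr rfl fun a _ => mul_comm _ _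
  rw [h4, h4, ← Finset.sum_sub_distrib]
  refine Finset.sum_congr rfl fun a _ => ?_
  unfold coef
  rw [hg]
  ring

theorem cert_sum [NeZero p] (v : ℕ → Bool) (j : ℕ) : ∀ (W : List (List ℕ × List ℕ × ℕ)) (S : ℕ), (∀ x ∈ W, ∀ y ∈ x.1, y ∈ x.2.1) →
    ((cert p j W S).map fun x => if pval v x.1 x.2 then (1 : ZMod p) else 0).sum =
      (((S + (W.flatMap Prod.fst).countP v).choose j : ℕ) : ZMod p) - (((S + (W.map fun x => x.2.2).sum).choose j : ℕ) : ZMod p) := by
  intro W
  induction W with
  | nil =>
    intro S _
    simp [cert]
  | cons x W ih =>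
    intro S hW
    rw [cert, List.map_append, List.sum_append, loc_sum v j _ _ _ _ _ (hW x List.mem_cons_self),
      ih _ fun y hy => hW y (List.mem_cons_of_mem _ hy), List.flatMap_cons, List.countP_append, List.map_cons, List.sum_cons]
    have e1 : S + (x.1.countP v + (W.flatMap Prod.fst).countP v) = S + x.1.countP v + (W.flatMap Prod.fst).countP v := by ring
    have e2 : S + (x.2.2 + (W.map fun x => x.2.2).sum) = S + x.2.2 + (W.map fun x => x.2.2).sum := by ring
    rw [e1, e2]
    ring

/-- Every term of the certificate comes from a sign pattern which violates the equation of a vertex modulo `p^k`. -/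
theorem cert_mem [Fact p.Prime] {k j : ℕ} (hj : j < p ^ k) : ∀ (W : List (List ℕ × List ℕ × ℕ)) (S : ℕ), ∀ y ∈ cert p j W S,
    ∃ x ∈ W, y.1 ∈ asgB x.2.1 ∧ y.2.length ≤ j ∧ ¬ gA y.1 x.1 ≡ x.2.2 [MOD p ^ k] := by
  intro W
  induction W with
  | nil =>
    intro S y hy
    exact absurd hy (by simp [cert])
  | cons x W ih =>
    intro S y hy
    rw [cert] at hy
    rcases List.mem_append.1 hy with hy | hy
    · refine ⟨x, List.mem_cons_self, ?_⟩
      unfold loc at hy
      simp only [List.mem_flatMap, List.mem_range] at hy
      obtain ⟨a, ha, A, hA, m, hm, hy⟩ := hy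
      obtain ⟨h1, rfl⟩ := List.mem_replicate.1 hy
      refine ⟨hA, ?_, ?_⟩
      · rw [List.length_of_sublistsLen hm]
        omega
      · intro hmod
        apply h1
        have h2 : coef p j a S x.2.2 A x.1 = 0 := by
          unfold coef
          rw [sub_eq_zero]
          exact choose_per k _ _ _ (hmod.add_left S) (by omega)
        rw [h2, ZMod.val_zero]
    · obtain ⟨z, hz, h⟩ := ih _ y hy
      exact ⟨z, List.mem_cons_of_mem _ hz, h⟩

theorem cert_len [NeZero p] (j bV bY : ℕ) : ∀ (W : List (List ℕ × List ℕ × ℕ)) (S : ℕ), (∀ x ∈ W, x.2.1.length ≤ bV) →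
    (W.flatMap Prod.fst).length ≤ bY → (cert p j W S).length ≤ W.length * ((j + 1) * (2 ^ bV * ((bY + 1) ^ j * p))) := by
  intro W
  induction W with
  | nil =>
    intro S _ _
    simp [cert]
  | cons x W ih =>
    intro S hV hY
    rw [List.flatMap_cons, List.length_append] at hY
    rw [cert, List.length_append, List.length_cons]
    have h1 := ih (S + x.2.2) (fun y hy => hV y (List.mem_cons_of_mem _ hy)) (by omega)
    have h2 : (loc p j x.1 x.2.1 x.2.2 S (W.flatMap Prod.fst)).length ≤ (j + 1) * (2 ^ bV * ((bY + 1) ^ j * p)) := by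
      unfold loc
      refine (flat_len _ _ (2 ^ bV * ((bY + 1) ^ j * p)) fun a ha => ?_).trans (by rw [List.length_range])
      refine (flat_len _ _ ((bY + 1) ^ j * p) fun A _ => ?_).trans ?_
      · refine (flat_len _ _ p fun m _ => ?_).trans ?_
        · rw [List.length_replicate]
          exact (ZMod.val_lt _).le
        · refine Nat.mul_le_mul_right _ ?_
          rw [List.length_sublistsLen]
          have h3 : a ≤ j := by
            rw [List.mem_range] at ha
            omega
          calc ((W.flatMap Prod.fst).length).choose a ≤ ((W.flatMap Prod.fst).length) ^ a := Nat.choose_le_pow _ _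
            _ ≤ (bY + 1) ^ a := Nat.pow_le_pow_left (by omega) a
            _ ≤ (bY + 1) ^ j := Nat.pow_le_pow_right (by omega) h3
      · rw [asgB_len]
        exact Nat.mul_le_mul_right _ (Nat.pow_le_pow_right (by norm_num) (hV x List.mem_cons_self))
    calc _ ≤ (j + 1) * (2 ^ bV * ((bY + 1) ^ j * p)) + W.length * ((j + 1) * (2 ^ bV * ((bY + 1) ^ j * p))) := Nat.add_le_add h2 h1
      _ = (W.length + 1) * ((j + 1) * (2 ^ bV * ((bY + 1) ^ j * p))) := by ring

end PPh.TU
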