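import Pool.Agent.H85.GT.NsSys

/-!
helper85: Nullstellensatz refutations over `F_p` of constant degree give short refutations in Frege systems with `MOD_p`: the refutation.
-/

set_option autoImplicit false
open Finset

namespace PPh.TU

open ACpFrege ACpB ACpSep PPh

variable {p : ℕ}

/-- The sum (modulo `p`) of conjunctions. -/
def ml (p : ℕ) (L : List (List ℕ)) : Fm p := mdL 0 (L.map (cj p))

theorem cj_size (C : List ℕ) : (cj p C).size = 1 + C.length := by
  unfold cj
  rw [size_cnL]
  congr 1
  exact sum_vl (q := p) C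

theorem ml_size (L : List (List ℕ)) : (ml p L).size = 1 + (L.map fun C => 1 + C.length).sum := by
  unfold ml
  rw [size_mdL, List.map_map]
  congr 2
  refine List.map_congr_left fun C _ => ?_
  simp only [Function.comp_apply, cj_size]

theorem dep_cj (C : List ℕ) (c : ℕ) : (cj p C).dep c ≤ 1 := by
  unfold cj cnL
  rw [Fm.dep]
  have h : (Finset.univ.sup fun i => ((C.map (Fm.var (p := p))).get i).dep (if false = true then 2 else 3)) = 0 := by
    rw [← Nat.bot_eq_zero, Finset.sup_eq_bot_iff]
    intro i _
    have h1 := List.get_mem (C.map (Fm.var (p := p))) i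
    rw [List.mem_map] at h1
    obtain ⟨x, _, h2⟩ := h1
    rw [← h2, Fm.dep]
    rfl
  rw [h]
  split_ifs <;> omega

theorem ml_depth (L : List (List ℕ)) : (ml p L).depth ≤ 2 := by
  unfold Fm.depth ml mdL
  rw [Fm.dep]
  have h : (Finset.univ.sup fun i => ((L.map (cj p)).get i).dep 0) ≤ 1 := by
    refine Finset.sup_le fun i _ => ?_
    have h1 := List.get_mem (L.map (cj p)) i
    rw [List.mem_map] at h1
    obtain ⟨C, _, h2⟩ := h1
    rw [← h2]
    exact dep_cj C 0
  omega

theorem inst_anS (s : ℕ → Fm p) (G : ℕ → List (Fm p)) (l : List (Sch p)) :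
    (anS l).inst s G = [cnL false (l.flatMap (Sch.inst s G))] := by
  unfold anS
  rw [Sch.inst, List.flatMap_def]
  congr 3
  exact ofFn_get_map l (Sch.inst s G)

theorem inst_cjS (f : ℕ → ℕ) (G : ℕ → List (Fm p)) (C : List ℕ) :
    (cjS p C).inst (fun i => .var (f i)) G = [cj p (C.map f)] := by
  unfold cjS cj
  rw [inst_anS, inst_mvs, List.map_map]
  rfl

theorem inst_cjSs (f : ℕ → ℕ) (G : ℕ → List (Fm p)) (L : List (List ℕ)) :
    ((L.map (cjS p)).flatMap (Sch.inst (fun i => .var (f i)) G)) = (L.map (List.map f)).map (cj p) := by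
  induction L with
  | nil => rfl
  | cons a L ih =>
    rw [List.map_cons, List.flatMap_cons, ih, inst_cjS, List.map_cons, List.map_cons]
    rfl

theorem expd_map (f : ℕ → ℕ) : ∀ (A : List Lit) (m : List ℕ),
    (expd p A m).map (List.map f) = expd p (A.map fun l => (f l.1, l.2)) (m.map f) := by
  intro A
  induction A with
  | nil => intro m; rfl
  | cons l A ih =>
    intro m
    obtain ⟨x, s⟩ := l
    cases s
    · rw [List.map_cons]
      unfold expd
      rw [List.map_append, ih, List.map_flatten, List.map_replicate, ih, List.map_cons]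
    · rw [List.map_cons]
      unfold expd
      rw [ih, List.map_cons]

theorem expd_len (hp : 1 ≤ p) : ∀ (A : List Lit) (m : List ℕ), (expd p A m).length ≤ p ^ A.length := by
  intro A
  induction A with
  | nil => intro m; simp [expd]
  | cons l A ih =>
    intro m
    obtain ⟨x, s⟩ := l
    rw [List.length_cons, pow_succ]
    cases s
    · unfold expd
      rw [List.length_append]
      have h1 : ((List.replicate (p - 1) (expd p A (x :: m))).flatten).length ≤ (p - 1) * p ^ A.length := by
        rw [List.length_flatten, List.map_replicate, List.sum_replicate, smul_eq_mul]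
        exact Nat.mul_le_mul_left _ (ih _)
      have h2 := ih m
      calc _ ≤ p ^ A.length + (p - 1) * p ^ A.length := Nat.add_le_add h2 h1
        _ = p ^ A.length * p := by
          obtain ⟨k, rfl⟩ := Nat.exists_eq_add_of_le hp
          rw [Nat.add_sub_cancel_left]
          ring
    · unfold expd
      exact (ih _).trans (Nat.le_mul_of_pos_right _ (by omega))

theorem expd_wid : ∀ (A : List Lit) (m : List ℕ), ∀ C ∈ expd p A m, C.length ≤ A.length + m.length := by
  intro A
  induction A with
  | nil =>
    intro m C hC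
    simp only [expd, List.mem_singleton] at hC
    rw [hC]
    omega
  | cons l A ih =>
    intro m C hC
    obtain ⟨x, s⟩ := l
    rw [List.length_cons]
    cases s
    · unfold expd at hC
      rcases List.mem_append.1 hC with hC | hC
      · have := ih m C hC
        omega
      · obtain ⟨L, hL, hC⟩ := List.mem_flatten.1 hC
        rw [(List.mem_replicate.1 hL).2] at hC
        have := ih (x :: m) C hC
        rw [List.length_cons] at this
        omega
    · unfold expd at hC
      have := ih (x :: m) C hC
      rw [List.length_cons] at this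
      omega

section steps

variable {F : CNF} {T : Set (Fm p)} {w a : ℕ}

theorem sn_emp : StepT (SysN p w a) F T (ml p []) := by
  refine Or.inr ⟨cEmp p, by simp [SysN], fun _ => .var 0, fun _ => [], ?_, ?_⟩
  · simp [cEmp, inst_mdS, ml]
  · intro P hP
    exact absurd hP (by simp [cEmp])

theorem sn_cat (L L' : List (List ℕ)) (h1 : ml p L ∈ T) (h2 : ml p L' ∈ T) : StepT (SysN p w a) F T (ml p (L ++ L')) := by
  refine Or.inr ⟨rSum p 0 0, by simp [SysN], fun _ => .var 0, fun j => if j = 0 then L.map (cj p) else L'.map (cj p), ?_, ?_⟩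
  · unfold rSum
    rw [inst_mdS]
    simp [Sch.inst, ml]
  · intro P hP A hA
    unfold rSum at hP
    simp only [List.mem_cons, List.not_mem_nil, or_false] at hP
    rcases hP with rfl | rfl
    · rw [inst_mdS, List.mem_singleton] at hA
      rw [hA]
      simpa [Sch.inst, ml] using h1
    · rw [inst_mdS, List.mem_singleton] at hA
      rw [hA]
      simpa [Sch.inst, ml] using h2

theorem getD_idx {V : List ℕ} {x : ℕ} (h : x ∈ V) : V.getD (V.idxOf x) 0 = x := by
  have h1 := List.idxOf_lt_length_of_mem h
  rw [List.getD_eq_getElem _ _ h1]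
  exact List.getElem_idxOf h1

theorem map_back {V : List ℕ} (l : List ℕ) (h : ∀ x ∈ l, x ∈ V) : (l.map V.idxOf).map (fun i => V.getD i 0) = l := by
  rw [List.map_map]
  conv_rhs => rw [← List.map_id l]
  exact List.map_congr_left fun x hx => getD_idx (h x hx)

theorem map_backL {V : List ℕ} (l : List Lit) (h : ∀ x ∈ l, x.1 ∈ V) :
    (l.map fun x => (V.idxOf x.1, x.2)).map (fun x => (V.getD x.1 0, x.2)) = l := by
  rw [List.map_map]
  conv_rhs => rw [← List.map_id l]
  refine List.map_congr_left fun x hx => ?_
  simp only [Function.comp_apply, getD_idx (h x hx), id]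

theorem sn_R {C A : List Lit} {m : List ℕ} (hC : C.length ≤ w) (ha : A.length + m.length ≤ a) (hCA : ∀ l ∈ C, (l.1, !l.2) ∈ A)
    (h : clauseFm C ∈ T) : StepT (SysN p w a) F T (ml p (expd p A m)) := by
  set V : List ℕ := A.map Prod.fst ++ m with hV
  have hVl : V.length ≤ a := by rw [hV, List.length_append, List.length_map]; exact ha
  have hVA : ∀ l ∈ A, l.1 ∈ V := fun l hl => List.mem_append_left _ (List.mem_map_of_mem hl)
  have hVm : ∀ x ∈ m, x ∈ V := fun x hx => List.mem_append_right _ hx
  have hVC : ∀ l ∈ C, l.1 ∈ V := fun l hl => hVA (l.1, !l.2) (hCA l hl)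
  have hlt : ∀ x ∈ V, V.idxOf x < a := fun x hx => (List.idxOf_lt_length_of_mem hx).trans_le hVl
  have m1 : (C.map fun x => (V.idxOf x.1, x.2)) ∈ lsts (lits a) w := by
    refine mem_lsts _ _ _ (by rw [List.length_map]; exact hC) fun l hl => ?_
    obtain ⟨x, hx, rfl⟩ := List.mem_map.1 hl
    exact mem_lits (hlt _ (hVC x hx))
  have m2 : (A.map fun x => (V.idxOf x.1, x.2)) ∈ lsts (lits a) a := by
    refine mem_lsts _ _ _ (by rw [List.length_map]; omega) fun l hl => ?_
    obtain ⟨x, hx, rfl⟩ := List.mem_map.1 hl
    exact mem_lits (hlt _ (hVA x hx))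
  have m3 : m.map V.idxOf ∈ lsts (List.range a) a := by
    refine mem_lsts _ _ _ (by rw [List.length_map]; omega) fun l hl => ?_
    obtain ⟨x, hx, rfl⟩ := List.mem_map.1 hl
    exact List.mem_range.2 (hlt _ (hVm x hx))
  refine Or.inr ⟨nR p (C.map fun x => (V.idxOf x.1, x.2)) (A.map fun x => (V.idxOf x.1, x.2)) (m.map V.idxOf), ?_,
    fun i => .var (V.getD i 0), fun _ => [], ?_, ?_⟩
  · unfold SysN
    refine List.mem_append_left _ (List.mem_append_right _ (List.mem_flatMap.2 ⟨_, m1, List.mem_flatMap.2 ⟨_, m2, ?_⟩⟩))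
    rw [if_pos]
    · exact List.mem_map.2 ⟨_, m3, rfl⟩
    · intro l hl
      obtain ⟨x, hx, rfl⟩ := List.mem_map.1 hl
      exact List.mem_map.2 ⟨_, hCA x hx, rfl⟩
  · unfold nR
    rw [inst_mdS, inst_cjSs, expd_map]
    unfold ml
    have e1 := map_backL A hVA
    have e2 := map_back m hVm
    rw [e1, e2]
  · intro P hP B hB
    unfold nR at hP
    simp only [List.mem_cons, List.not_mem_nil, or_false] at hP
    subst hP
    rw [inst_clS, List.mem_singleton] at hB
    rw [hB]
    have e1 := map_backL C hVC
    rw [e1]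
    exact h

theorem sn_N {C C' : List ℕ} {L1 L2 : List (List ℕ)} (hC : C.length ≤ a) (hC' : C'.length ≤ a) (h12 : ∀ x ∈ C, x ∈ C')
    (h21 : ∀ x ∈ C', x ∈ C) (h : ml p (L1 ++ C :: L2) ∈ T) : StepT (SysN p w a) F T (ml p (L1 ++ C' :: L2)) := by
  have hlt : ∀ x ∈ C, C.idxOf x < a := fun x hx => (List.idxOf_lt_length_of_mem hx).trans_le hC
  refine Or.inr ⟨nN p (C.map C.idxOf) (C'.map C.idxOf), ?_, fun i => .var (C.getD i 0), fun j => if j = 0 then L1.map (cj p)
    else L2.map (cj p), ?_, ?_⟩
  · unfold SysN
    refine List.mem_append_right _ (List.mem_flatMap.2 ⟨_, mem_lsts _ _ _ (by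
      rw [List.length_map]
      exact hC) (by
      intro l hl
      obtain ⟨x, hx, rfl⟩ := List.mem_map.1 hl
      exact List.mem_range.2 (hlt _ hx)), List.mem_map.2 ⟨_, List.mem_filter.2 ⟨mem_lsts _ _ _ (by
      rw [List.length_map]
      exact hC') (by
      intro l hl
      obtain ⟨x, hx, rfl⟩ := List.mem_map.1 hl
      exact List.mem_range.2 (hlt _ (h21 x hx))), ?_⟩, rfl⟩⟩)
    rw [decide_eq_true_eq]
    constructor
    · intro y hy
      obtain ⟨x, hx, rfl⟩ := List.mem_map.1 hy
      exact List.mem_map.2 ⟨x, h12 x hx, rfl⟩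
    · intro y hy
      obtain ⟨x, hx, rfl⟩ := List.mem_map.1 hy
      exact List.mem_map.2 ⟨x, h21 x hx, rfl⟩
  · unfold nN
    rw [inst_mdS, List.flatMap_cons, List.flatMap_cons, List.flatMap_cons, List.flatMap_nil, inst_cjS, map_back C' h21]
    simp [Sch.inst, ml]
  · intro P hP B hB
    unfold nN at hP
    simp only [List.mem_cons, List.not_mem_nil, or_false] at hP
    subst hP
    rw [inst_mdS, List.flatMap_cons, List.flatMap_cons, List.flatMap_cons, List.flatMap_nil, inst_cjS, map_back C fun x hx => hx,
      List.mem_singleton] at hB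
    rw [hB]
    simpa [Sch.inst, ml] using h

theorem sn_rem (C : List ℕ) (g : List (List ℕ)) (Gs : List (List (List ℕ))) (hG : Gs.length = p)
    (h : ml p (g ++ Gs.flatMap fun g => C :: g) ∈ T) : StepT (SysN p w a) F T (ml p (g ++ Gs.flatten)) := by
  refine Or.inr ⟨nRem p, by simp [SysN], fun _ => cj p C, fun j => if j = p then g.map (cj p) else (Gs.getD j []).map (cj p), ?_, ?_⟩
  · unfold nRem
    rw [inst_mdS, List.flatMap_cons, List.flatMap_map]
    unfold ml
    congr 2
    have h1 := getD_flatMap Gs (fun g => g.map (cj p))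
    rw [hG] at h1
    rw [List.map_append]
    congr 1
    · simp [Sch.inst]
    · rw [List.map_flatten, ← List.flatMap_def, ← h1]
      refine List.flatMap_congr fun j hj => ?_
      have hj' : j ≠ p := fun h => by
        rw [List.mem_range] at hj
        omega
      simp only [Sch.inst, if_neg hj']
  · intro P hP A hA
    simp only [nRem, List.mem_cons, List.not_mem_nil, or_false] at hP
    subst hP
    rw [inst_mdS, List.mem_singleton] at hA
    rw [hA]
    have h1 := getD_flatMap Gs (fun g => (cj p C) :: g.map (cj p))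
    rw [hG] at h1
    have h2 : ((Sch.sq p :: (List.range p).flatMap fun j => [(Sch.mv 0 : Sch p), Sch.sq j]).flatMap
        (Sch.inst (fun _ => cj p C) fun j => if j = p then g.map (cj p) else (Gs.getD j []).map (cj p))) =
        (g ++ Gs.flatMap fun g => C :: g).map (cj p) := by
      rw [List.flatMap_cons, List.flatMap_assoc, List.map_append]
      congr 1
      · simp [Sch.inst]
      · rw [List.map_flatMap]
        have h3 : (Gs.flatMap fun a => (C :: a).map (cj p)) = Gs.flatMap fun g => cj p C :: g.map (cj p) := rfl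
        rw [h3, ← h1]
        refine List.flatMap_congr fun j hj => ?_
        have hj' : j ≠ p := fun h => by
          rw [List.mem_range] at hj
          omega
        simp [Sch.inst, hj']
    rw [h2]
    exact h

theorem sn_bot {c : ℕ} (hc : c < p) (h0 : c ≠ 0) (h : ml p (List.replicate c []) ∈ T) : StepT (SysN p w a) F T (cnL true []) := by
  refine Or.inr ⟨nBot p c, ?_, fun _ => .var 0, fun _ => [], ?_, ?_⟩
  · unfold SysN
    refine List.mem_append_left _ (List.mem_append_left _ (List.mem_append_right _ (List.mem_map.2 ⟨c, List.mem_filter.2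
      ⟨List.mem_range.2 hc, by simpa using h0⟩, rfl⟩)))
  · unfold nBot
    rw [Sch.inst]
    simp
  · intro P hP A hA
    simp only [nBot, List.mem_cons, List.not_mem_nil, or_false] at hP
    subst hP
    rw [inst_mdS, List.mem_singleton] at hA
    rw [hA]
    have h1 : ∀ n : ℕ, ((List.replicate n (anS [] : Sch p)).flatMap (Sch.inst (fun _ => Fm.var 0) fun _ => [])) =
        (List.replicate n ([] : List ℕ)).map (cj p) := by
      intro n
      induction n with
      | zero => rfl
      | succ n ih =>
        rw [List.replicate_succ, List.flatMap_cons, ih, inst_anS, List.replicate_succ, List.map_cons]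
        rfl
    rw [h1]
    exact h

end steps

end PPh.TU
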