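import Pool.Agent.H85.GT.Up

/-!
helper85 (project MP_28250c_GT, upper side): renaming of edges, and the steps of the vertices.
-/

set_option autoImplicit false
open Finset

namespace PPh.TU

open ACpFrege ACpB ACpSep PPh

variable {q : ℕ}

/-- The renaming of the variables which belongs to the renaming `f` of the edges. -/
def rho (q : ℕ) (f : ℕ → ℕ) (x : ℕ) : ℕ := f (x / q) * q + x % q

theorem rho_eq (f : ℕ → ℕ) {ν c : ℕ} (hc : c < q) : rho q f (ν * q + c) = f ν * q + c := by
  unfold rho
  have h0 : 0 < q := by omega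
  have h2 : (ν * q + c) / q = ν := by
    rw [Nat.mul_comm, Nat.mul_add_div h0, Nat.div_eq_of_lt hc, Nat.add_zero]
  have h3 : (ν * q + c) % q = c := by
    rw [Nat.mul_comm, Nat.mul_add_mod, Nat.mod_eq_of_lt hc]
  rw [h2, h3]

theorem exone_map (f : ℕ → ℕ) (ν : ℕ) : (exone q ν).map (fun C => C.map fun l => (rho q f l.1, l.2)) = exone q (f ν) := by
  unfold exone
  rw [List.map_append, List.map_cons, List.map_nil, List.map_flatMap, List.map_map]
  congr 1
  · congr 1
    refine List.map_congr_left fun c hc => ?_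
    rw [List.mem_range] at hc
    simp only [Function.comp_apply, isv, rho_eq f hc]
  · refine List.flatMap_congr fun c' hc' => ?_
    rw [List.mem_range] at hc'
    rw [List.map_map]
    refine List.map_congr_left fun c hc => ?_
    rw [List.mem_range] at hc
    simp only [Function.comp_apply, nov, List.map_cons, List.map_nil, rho_eq f hc', rho_eq f (hc.trans hc')]

theorem asg_map (f : ℕ → ℕ) : ∀ l : List (ℕ × Bool),
    asg q (l.map fun e => (f e.1, e.2)) = (asg q l).map fun a => a.map fun x : ℕ × Bool × ℕ => (f x.1, x.2) := by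
  intro l
  induction l with
  | nil => simp [asg]
  | cons e l ih =>
    rw [List.map_cons, asg, asg, List.map_flatMap, ih]
    refine List.flatMap_congr fun c _ => ?_
    rw [List.map_map, List.map_map]
    rfl

theorem asg_lt : ∀ (l : List (ℕ × Bool)), ∀ a ∈ asg q l, ∀ x ∈ a, x.2.2 < q := by
  intro l
  induction l with
  | nil =>
    intro a ha x hx
    simp only [asg, List.mem_singleton] at ha
    subst ha
    exact absurd hx (by simp)
  | cons e l ih =>
    intro a ha x hx
    rw [asg, List.mem_flatMap] at ha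
    obtain ⟨c, hc, ha⟩ := ha
    obtain ⟨a', ha', rfl⟩ := List.mem_map.1 ha
    rcases List.mem_cons.1 hx with rfl | hx
    · exact List.mem_range.1 hc
    · exact ih a' ha' x hx

theorem net_map (f : ℕ → ℕ) (a : List (ℕ × Bool × ℕ)) : net q (a.map fun x : ℕ × Bool × ℕ => (f x.1, x.2)) = net q a := by
  unfold net
  rw [List.map_map]
  rfl

theorem eqc_map (f : ℕ → ℕ) (l : List (ℕ × Bool)) (s : ZMod q) :
    (eqc q l s).map (fun C => C.map fun l => (rho q f l.1, l.2)) = eqc q (l.map fun e => (f e.1, e.2)) s := by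
  unfold eqc
  rw [asg_map, List.filter_map, List.map_map, List.map_map]
  have h : ((fun a => decide (net q a ≠ s)) ∘ fun a : List (ℕ × Bool × ℕ) => a.map fun x : ℕ × Bool × ℕ => (f x.1, x.2)) =
      fun a => decide (net q a ≠ s) := by
    funext a
    simp only [Function.comp_apply, net_map]
  rw [h]
  refine List.map_congr_left fun a ha => ?_
  have ha' := asg_lt l a (List.mem_of_mem_filter ha)
  simp only [Function.comp_apply, List.map_map]
  refine List.map_congr_left fun x hx => ?_
  simp only [Function.comp_apply, nov, rho_eq f (ha' x hx)]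

theorem eqb_map (f : ℕ → ℕ) (l : List (ℕ × Bool)) (s : ZMod 2) :
    (eqb l s).map (fun C => C.map fun l => (f l.1, l.2)) = eqb (l.map fun e => (f e.1, e.2)) s := by
  unfold eqb
  rw [asg_map, List.filter_map, List.map_map, List.map_map]
  have h : ((fun a => decide (net 2 a ≠ s)) ∘ fun a : List (ℕ × Bool × ℕ) => a.map fun x : ℕ × Bool × ℕ => (f x.1, x.2)) =
      fun a => decide (net 2 a ≠ s) := by
    funext a
    simp only [Function.comp_apply, net_map]
  rw [h]
  refine List.map_congr_left fun a _ => ?_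
  simp only [Function.comp_apply, List.map_map]
  rfl

theorem cp_map (f : ℕ → ℕ) (e : ℕ × Bool) : (cp q e).map (rho q f) = cp q (f e.1, e.2) := by
  unfold cp
  rw [List.map_flatMap]
  refine List.flatMap_congr fun c hc => ?_
  rw [List.map_replicate, rho_eq f (List.mem_range.1 hc)]

theorem idx_map : ∀ (l pre : List (ℕ × Bool)),
    (idx pre.length (l.map Prod.snd)).map (fun e => (((pre ++ l).getD e.1 (0, true)).1, e.2)) = l := by
  intro l
  induction l with
  | nil => intro pre; rfl
  | cons a l ih =>
    intro pre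
    rw [List.map_cons, idx, List.map_cons]
    have h1 := ih (pre ++ [a])
    rw [List.length_append, List.length_singleton, List.append_assoc, List.singleton_append] at h1
    rw [h1]
    congr 1
    simp

/-- The edge with a number in the list. -/
def nth (l : List (ℕ × Bool)) (i : ℕ) : ℕ := (l.getD i (0, true)).1

theorem idx_nth (l : List (ℕ × Bool)) : (idx 0 (l.map Prod.snd)).map (fun e => (nth l e.1, e.2)) = l := idx_map l []

theorem flatMap_ren {α β : Type} (l : List α) (g : α → α) (h : α → List β) : (l.map g).flatMap h = l.flatMap fun a => h (g a) := by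
  rw [List.flatMap_map]

theorem inst_mvs (s : ℕ → Fm q) (G : ℕ → List (Fm q)) (L : List ℕ) : (L.map (Sch.mv (p := q))).flatMap (Sch.inst s G) = L.map s := by
  induction L with
  | nil => rfl
  | cons a L ih =>
    rw [List.map_cons, List.flatMap_cons, ih, Sch.inst, List.map_cons]
    rfl

variable [NeZero q] {F : CNF}

theorem sq_vR {D : ℕ} {l : List (ℕ × Bool)} (hl : l.length ≤ D) (s : ZMod q) (hF1 : ∀ e ∈ l, ∀ C ∈ exone q e.1, C ∈ F)
    (hF2 : ∀ C ∈ eqc q l s, C ∈ F) (T' : Set (Fm q)) (hT : {A | ∃ C ∈ F, A = clauseFm C} ⊆ T') :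
    StepT (SysT q D) F T' (mdL s (vl q (l.flatMap (cp q)))) := by
  refine Or.inr ⟨vR q (l.map Prod.snd) s, ?_, fun i => .var (rho q (nth l) i), fun _ => [], ?_, ?_⟩
  · unfold SysT
    exact List.mem_append_right _ (List.mem_flatMap.2 ⟨l.map Prod.snd, mem_bls D _ (by rw [List.length_map]; exact hl),
      List.mem_map.2 ⟨s, mem_vals s, rfl⟩⟩)
  · unfold vR
    rw [inst_mdS, inst_mvs]
    congr 2
    have h1 : ((idx 0 (l.map Prod.snd)).flatMap (cp q)).map (rho q (nth l)) = l.flatMap (cp q) := by
      conv_rhs => rw [← idx_nth l, flatMap_ren]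
      rw [List.map_flatMap]
      exact List.flatMap_congr fun e _ => cp_map _ e
    rw [← h1]
    unfold vl
    rw [List.map_map]
    rfl
  · intro P hP A hA
    unfold vR at hP
    obtain ⟨C, hC, rfl⟩ := List.mem_map.1 hP
    rw [inst_clS, List.mem_singleton] at hA
    rw [hA]
    refine hT ⟨_, ?_, rfl⟩
    rcases List.mem_append.1 hC with hC | hC
    · obtain ⟨e, he, hC⟩ := List.mem_flatMap.1 hC
      have h1 : (nth l e.1, e.2) ∈ l := by
        have h2 := idx_nth l
        have h3 : (nth l e.1, e.2) ∈ (idx 0 (l.map Prod.snd)).map (fun e => (nth l e.1, e.2)) := List.mem_map_of_mem he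
        rwa [h2] at h3
      refine hF1 _ h1 _ ?_
      have h4 := exone_map (q := q) (nth l) e.1
      simp only
      rw [← h4]
      exact List.mem_map_of_mem hC
    · refine hF2 _ ?_
      have h1 := eqc_map (nth l) (idx 0 (l.map Prod.snd)) s
      rw [idx_nth] at h1
      rw [← h1]
      exact List.mem_map_of_mem hC

theorem sq_vRb {D : ℕ} {l : List (ℕ × Bool)} (hl : l.length ≤ D) (s : ZMod 2) (hF2 : ∀ C ∈ eqb l s, C ∈ F) (T' : Set (Fm 2))
    (hT : {A | ∃ C ∈ F, A = clauseFm C} ⊆ T') : StepT (SysB D) F T' (mdL s (vl 2 (l.map Prod.fst))) := by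
  refine Or.inr ⟨vRb (l.map Prod.snd) s, ?_, fun i => .var (nth l i), fun _ => [], ?_, ?_⟩
  · unfold SysB
    exact List.mem_append_right _ (List.mem_flatMap.2 ⟨l.map Prod.snd, mem_bls D _ (by rw [List.length_map]; exact hl),
      List.mem_map.2 ⟨s, mem_vals s, rfl⟩⟩)
  · unfold vRb
    rw [inst_mdS, inst_mvs]
    congr 2
    have h1 : ((idx 0 (l.map Prod.snd)).map Prod.fst).map (nth l) = l.map Prod.fst := by
      conv_rhs => rw [← idx_nth l]
      rw [List.map_map, List.map_map]
      rfl
    rw [← h1]
    unfold vl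
    simp only [List.map_map]
    rfl
  · intro P hP A hA
    unfold vRb at hP
    obtain ⟨C, hC, rfl⟩ := List.mem_map.1 hP
    rw [inst_clS, List.mem_singleton] at hA
    rw [hA]
    refine hT ⟨_, hF2 _ ?_, rfl⟩
    have h1 := eqb_map (nth l) (idx 0 (l.map Prod.snd)) s
    rw [idx_nth] at h1
    rw [← h1]
    exact List.mem_map_of_mem hC

end PPh.TU
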