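import Pool.Agent.H88.AS.CUp2
import Pool.Agent.H85.PC.Unsat
import Pool.Agent.H94.TG.Defs

/-!
helper85 (project MP_28250c_GT, upper side): a finite sound Frege system with `MOD_q` connectives for the Tseitin formulas modulo `q` of
graphs of maximum degree `D`.
-/

set_option autoImplicit false
open Finset

namespace PPh.TU

open ACpFrege ACpB ACpSep PPh

/-- All lists of truth values of length at most `D`. -/
def bls : ℕ → List (List Bool)
  | 0 => [[]]
  | D + 1 => [] :: (bls D).flatMap fun l => [true :: l, false :: l]

theorem mem_bls : ∀ (D : ℕ) (l : List Bool), l.length ≤ D → l ∈ bls D := by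
  intro D
  induction D with
  | zero =>
    intro l hl
    have : l = [] := List.length_eq_zero_iff.1 (by omega)
    subst this
    simp [bls]
  | succ D ih =>
    intro l hl
    unfold bls
    cases l with
    | nil => exact List.mem_cons_self
    | cons b l =>
      rw [List.length_cons] at hl
      refine List.mem_cons_of_mem _ (List.mem_flatMap.2 ⟨l, ih l (by omega), ?_⟩)
      cases b <;> simp

/-- The edges number `k, k + 1, ..` with the given directions. -/
def idx : ℕ → List Bool → List (ℕ × Bool)
  | _, [] => []
  | k, b :: l => (k, b) :: idx (k + 1) l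

/-- The copies of the variables of an edge which represent its value in a sum modulo `q` (with the sign given by the direction): the
variable for the value `c` is taken `c` times or `q - c` times. -/
def cp (q : ℕ) (e : ℕ × Bool) : List ℕ := (List.range q).flatMap fun c => List.replicate (if e.2 then c else q - c) (e.1 * q + c)

/-- The rule of a vertex: the edges have exactly one value, and all values which violate the equation are excluded; infer the equation with
a `MOD_q` connective. -/
def vR (q : ℕ) (ds : List Bool) (s : ZMod q) : Rule q :=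
  ⟨(((idx 0 ds).flatMap fun e => exone q e.1) ++ eqc q (idx 0 ds) s).map clS, mdS s (((idx 0 ds).flatMap (cp q)).map Sch.mv)⟩

/-- The rule of a vertex for the classical formulas modulo 2. -/
def vRb (ds : List Bool) (s : ZMod 2) : Rule 2 :=
  ⟨(eqb (idx 0 ds) s).map clS, mdS s (((idx 0 ds).map Prod.fst).map Sch.mv)⟩

/-- The rules for sums. -/
def SysS (q : ℕ) : List (Rule q) :=
  [cEmp q] ++ ((vals q).flatMap fun r => (vals q).map fun s => rSum q r s) ++ (vals q).map (cRem q) ++
    ((vals q).filter fun r => r.val ≠ 0).map (cBot q)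

/-- The system for graphs of maximum degree at most `D`. -/
def SysT (q D : ℕ) : List (Rule q) := SysS q ++ (bls D).flatMap fun ds => (vals q).map fun s => vR q ds s

/-- The system for graphs of maximum degree at most `D`, classical formulas modulo 2. -/
def SysB (D : ℕ) : List (Rule 2) := SysS 2 ++ (bls D).flatMap fun ds => (vals 2).map fun s => vRb ds s

/-! ### Soundness -/

variable {q : ℕ}

theorem ev_clS (v : ℕ → Bool) (w : ℕ → List Bool) (C : List Lit) :
    (clS (q := q) C).ev v w = [(C.map fun l => if l.2 then v l.1 else !(v l.1)).any id] := by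
  unfold clS
  rw [Sch.ev]
  congr 2
  have h1 : (List.ofFn fun i : Fin C.length =>
      (if (C.get i).2 = true then (Sch.mv (C.get i).1 : Sch q) else .neg (.mv (C.get i).1)).ev v w) =
      C.map fun l => [if l.2 then v l.1 else !(v l.1)] := by
    conv_rhs => rw [← List.ofFn_get C, List.map_ofFn]
    congr 1
    funext i
    simp only [Function.comp_apply]
    split_ifs
    · rw [Sch.ev]
    · rw [Sch.ev, Sch.ev]
      rfl
  rw [h1]
  have h2 : ∀ l : List Lit, (l.map fun l => [if l.2 then v l.1 else !(v l.1)]).flatten =
      l.map fun l => if l.2 then v l.1 else !(v l.1) := by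
    intro l
    induction l with
    | nil => rfl
    | cons a l ih =>
      rw [List.map_cons, List.flatten_cons, ih, List.map_cons]
      rfl
  rw [h2]

theorem sat_of_prem {v : ℕ → Bool} {w : ℕ → List Bool} {F : CNF} (h : ∀ P ∈ F.map (clS (q := q)), ∀ b ∈ P.ev v w, b = true) :
    SatBy v F := by
  intro C hC
  have h1 := h (clS C) (List.mem_map_of_mem hC) _ (by rw [ev_clS]; exact List.mem_singleton_self _)
  rw [List.any_eq_true] at h1
  obtain ⟨b, hb, hb'⟩ := h1
  obtain ⟨l, hl, rfl⟩ := List.mem_map.1 hb
  refine ⟨l, hl, ?_⟩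
  cases h2 : l.2 <;> simp_all

/-- The value list is an assignment. -/
theorem asg_mem (c : ℕ → ℕ) : ∀ l : List (ℕ × Bool), (∀ e ∈ l, c e.1 < q) → (l.map fun e => (e.1, e.2, c e.1)) ∈ asg q l := by
  intro l
  induction l with
  | nil => intro _; simp [asg]
  | cons e l ih =>
    intro h
    rw [asg, List.map_cons]
    exact List.mem_flatMap.2 ⟨c e.1, List.mem_range.2 (h e List.mem_cons_self), List.mem_map.2 ⟨_, ih fun e' he' =>
      h e' (List.mem_cons_of_mem _ he'), rfl⟩⟩

theorem count_rep (v : ℕ → Bool) (m x : ℕ) : ((List.replicate m x).map v).count true = if v x then m else 0 := by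
  rw [List.map_replicate]
  cases h : v x
  · rw [List.count_replicate]
    simp
  · rw [List.count_replicate]
    simp

/-- The sum of the copies is the value of the edge with sign. -/
theorem count_cp {v : ℕ → Bool} {e : ℕ × Bool} {c : ℕ} (h : Val v q e.1 c) :
    (((cp q e).map v).count true : ZMod q) = if e.2 then (c : ZMod q) else -(c : ZMod q) := by
  obtain ⟨hc, h1, h2⟩ := h
  unfold cp
  have key : ∀ n ≤ q, ((((List.range n).flatMap fun c => List.replicate (if e.2 then c else q - c) (e.1 * q + c)).map v).count true : ℕ) =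
      if c < n then (if e.2 then c else q - c) else 0 := by
    intro n
    induction n with
    | zero => intro _; simp
    | succ n ih =>
      intro hn
      rw [List.range_succ, List.flatMap_append, List.flatMap_singleton, List.map_append, List.count_append, ih (by omega), count_rep]
      by_cases hcn : c = n
      · subst hcn
        rw [if_neg (lt_irrefl _), if_pos h1, if_pos (Nat.lt_succ_self _), Nat.zero_add]
      · have h3 : v (e.1 * q + n) = false := by
          by_contra h4
          exact hcn (h2 n (by omega) (by simpa using h4)).symm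
        rw [h3, if_neg (Bool.false_ne_true : ¬ (false = true)), Nat.add_zero]
        by_cases h4 : c < n
        · rw [if_pos h4, if_pos (Nat.lt_succ_of_lt h4)]
        · rw [if_neg h4, if_neg (by omega)]
  rw [key q le_rfl, if_pos hc]
  split_ifs
  · rfl
  · rw [Nat.cast_sub hc.le]
    simp

theorem count_cps {v : ℕ → Bool} (c : ℕ → ℕ) : ∀ l : List (ℕ × Bool), (∀ e ∈ l, Val v q e.1 (c e.1)) →
    ((((l.flatMap (cp q)).map v).count true : ℕ) : ZMod q) = net q (l.map fun e => (e.1, e.2, c e.1)) := by
  intro l
  induction l with
  | nil => intro _; simp [net]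
  | cons e l ih =>
    intro h
    rw [List.flatMap_cons, List.map_append, List.count_append, Nat.cast_add, count_cp (h e List.mem_cons_self),
      ih fun e' he' => h e' (List.mem_cons_of_mem _ he')]
    unfold net
    rw [List.map_cons, List.map_cons, List.sum_cons]

theorem ev_mvs (v : ℕ → Bool) (w : ℕ → List Bool) (L : List ℕ) :
    ((L.map (Sch.mv (p := q))).flatMap (Sch.ev v w)) = L.map v := by
  induction L with
  | nil => rfl
  | cons a L ih =>
    rw [List.map_cons, List.flatMap_cons, ih, Sch.ev, List.map_cons]
    rfl

theorem vR_sound (ds : List Bool) (s : ZMod q) : (vR q ds s).Sound := by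
  intro v w h b hb
  unfold vR at h hb
  have hsat : SatBy v (((idx 0 ds).flatMap fun e => exone q e.1) ++ eqc q (idx 0 ds) s) := sat_of_prem h
  have hv : ∀ e ∈ idx 0 ds, ∃ c, Val v q e.1 c := fun e he => val_of fun C hC =>
    hsat C (List.mem_append_left _ (List.mem_flatMap.2 ⟨e, he, hC⟩))
  classical
  let c : ℕ → ℕ := fun ν => if h : ∃ c, Val v q ν c then h.choose else 0
  have hc : ∀ e ∈ idx 0 ds, Val v q e.1 (c e.1) := by
    intro e he
    simp only [c]
    rw [dif_pos (hv e he)]
    exact (hv e he).choose_spec
  have hnet : net q ((idx 0 ds).map fun e => (e.1, e.2, c e.1)) = s := by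
    by_contra hne
    obtain ⟨l, hl, hl'⟩ := hsat (((idx 0 ds).map fun e => (e.1, e.2, c e.1)).map fun x => nov q x.1 x.2.2)
      (List.mem_append_right _ (List.mem_map.2 ⟨_, List.mem_filter.2 ⟨asg_mem c _ fun e he => (hc e he).1, by simpa using hne⟩, rfl⟩))
    rw [List.map_map, List.mem_map] at hl
    obtain ⟨e, he, rfl⟩ := hl
    simp only [Function.comp_apply, nov] at hl'
    rw [(hc e he).2.1] at hl'
    exact absurd hl' (by simp)
  simp only [ev_mdS, List.mem_singleton] at hb
  rw [hb, decide_eq_true_eq, ev_mvs, count_cps c _ hc, hnet]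

theorem vRb_sound (ds : List Bool) (s : ZMod 2) : (vRb ds s).Sound := by
  intro v w h b hb
  unfold vRb at h hb
  have hsat : SatBy v (eqb (idx 0 ds) s) := sat_of_prem h
  let c : ℕ → ℕ := fun ν => if v ν then 1 else 0
  have hc : ∀ ν, c ν < 2 := by
    intro ν
    simp only [c]
    split_ifs <;> omega
  have hnet : net 2 ((idx 0 ds).map fun e => (e.1, e.2, c e.1)) = s := by
    by_contra hne
    obtain ⟨l, hl, hl'⟩ := hsat (((idx 0 ds).map fun e : ℕ × Bool => (e.1, e.2, c e.1)).map fun x : ℕ × Bool × ℕ => (x.1, decide (x.2.2 = 0)))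
      (List.mem_map.2 ⟨_, List.mem_filter.2 ⟨asg_mem c _ fun e _ => hc e.1, by simpa using hne⟩, rfl⟩)
    rw [List.map_map, List.mem_map] at hl
    obtain ⟨e, he, rfl⟩ := hl
    simp only [Function.comp_apply, c] at hl'
    cases hve : v e.1 <;> simp [hve] at hl'
  simp only [ev_mdS, List.mem_singleton] at hb
  rw [hb, decide_eq_true_eq, ev_mvs, ← hnet]
  have key : ∀ l : List (ℕ × Bool), ((((l.map Prod.fst).map v).count true : ℕ) : ZMod 2) = net 2 (l.map fun e => (e.1, e.2, c e.1)) := by
    intro l
    induction l with
    | nil => simp [net]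
    | cons e l ih =>
      unfold net at ih ⊢
      rw [List.map_cons, List.map_cons, List.count_cons, Nat.cast_add, ih, List.map_cons, List.map_cons, List.sum_cons, add_comm]
      congr 1
      simp only [c]
      have h2 : (-1 : ZMod 2) = 1 := by decide
      cases hve : v e.1 <;> cases hb2 : e.2 <;> simp [h2]
  exact key _

theorem sysS_sound (hq : 2 ≤ q) : ∀ R ∈ SysS q, R.Sound := by
  intro R hR
  have hC := soundC q hq
  unfold SysC at hC
  unfold SysS at hR
  simp only [List.mem_append, List.mem_singleton, List.mem_flatMap, List.mem_map, List.mem_filter] at hR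
  rcases hR with ((rfl | ⟨r, _, s, _, rfl⟩) | ⟨r, hr, rfl⟩) | ⟨r, hr, rfl⟩
  · exact hC _ (by simp)
  · exact sum_sound r s
  · exact hC _ (List.mem_append_left _ (List.mem_append_right _ (List.mem_map_of_mem hr)))
  · exact hC _ (List.mem_append_right _ (List.mem_map_of_mem (List.mem_filter.2 ⟨hr.1, hr.2⟩)))

theorem sysT_sound (hq : 2 ≤ q) (D : ℕ) : ∀ R ∈ SysT q D, R.Sound := by
  intro R hR
  unfold SysT at hR
  rcases List.mem_append.1 hR with hR | hR
  · exact sysS_sound hq R hR
  · simp only [List.mem_flatMap, List.mem_map] at hR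
    obtain ⟨ds, _, s, _, rfl⟩ := hR
    exact vR_sound ds s

theorem sysB_sound (D : ℕ) : ∀ R ∈ SysB D, R.Sound := by
  intro R hR
  unfold SysB at hR
  rcases List.mem_append.1 hR with hR | hR
  · exact sysS_sound le_rfl R hR
  · simp only [List.mem_flatMap, List.mem_map] at hR
    obtain ⟨ds, _, s, _, rfl⟩ := hR
    exact vRb_sound ds s

end PPh.TU
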