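import Pool.Agent.H85.GT.Sys

/-!
helper85 (project MP_28250c_GT, upper side): the refutation from the equations of the vertices.
-/

set_option autoImplicit false
open Finset

namespace PPh.TU

open ACpFrege ACpB ACpSep PPh

variable {q : ℕ}

/-- The variables with the numbers in a list. -/
def vl (q : ℕ) (L : List ℕ) : List (Fm q) := L.map Fm.var

theorem vl_append (L L' : List ℕ) : vl q (L ++ L') = vl q L ++ vl q L' := List.map_append

theorem vl_var (L : List ℕ) : ∀ A ∈ vl q L, ∃ x, A = .var x := by
  intro A hA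
  obtain ⟨e, _, rfl⟩ := List.mem_map.1 hA
  exact ⟨_, rfl⟩

theorem sum_vl (L : List ℕ) : ((vl q L).map Fm.size).sum = L.length := by
  rw [size_vars _ (vl_var L)]
  simp [vl]

theorem dep_vl (r : ZMod q) (L : List ℕ) : (mdL r (vl q L)).depth ≤ 2 := (dep_mdL r _ (vl_var L)).trans (by omega)

theorem stepT_mono {S S' : List (Rule q)} (hS : ∀ R ∈ S, R ∈ S') {F : CNF} {T : Set (Fm q)} {A : Fm q} (h : StepT S F T A) :
    StepT S' F T A := by
  rcases h with h | ⟨R, hR, h⟩
  · exact Or.inl h
  · exact Or.inr ⟨R, hS R hR, h⟩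

section

variable {F : CNF} {B k : ℕ} {T : Set (Fm q)}

theorem sq_emp : StepT (SysS q) F T (mdL 0 (vl q [])) := by
  refine Or.inr ⟨cEmp q, by simp [SysS], fun _ => .var 0, fun _ => [], ?_, ?_⟩
  · simp [cEmp, inst_mdS, vl]
  · intro P hP
    exact absurd hP (by simp [cEmp])

variable [NeZero q]

theorem sq_sum (r s : ZMod q) (l l' : List ℕ) (h1 : mdL r (vl q l) ∈ T) (h2 : mdL s (vl q l') ∈ T) :
    StepT (SysS q) F T (mdL (r + s) (vl q (l ++ l'))) := by
  refine Or.inr ⟨rSum q r s, ?_, fun _ => .var 0, fun j => if j = 0 then vl q l else vl q l', ?_, ?_⟩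
  · unfold SysS
    rw [List.mem_append, List.mem_append, List.mem_append]
    exact Or.inl (Or.inl (Or.inr (List.mem_flatMap.2 ⟨r, mem_vals r, List.mem_map.2 ⟨s, mem_vals s, rfl⟩⟩)))
  · unfold rSum
    rw [inst_mdS, vl_append]
    simp [Sch.inst]
  · intro P hP A hA
    unfold rSum at hP
    simp only [List.mem_cons, List.not_mem_nil, or_false] at hP
    rcases hP with rfl | rfl
    · rw [inst_mdS, List.mem_singleton] at hA
      rw [hA]
      simpa [Sch.inst] using h1
    · rw [inst_mdS, List.mem_singleton] at hA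
      rw [hA]
      simpa [Sch.inst] using h2

theorem sq_rem (r : ZMod q) (e : ℕ) (Gs : List (List ℕ)) (hG : Gs.length = q)
    (h : mdL r (vl q (Gs.flatMap fun g => e :: g)) ∈ T) : StepT (SysS q) F T (mdL r (vl q Gs.flatten)) := by
  refine Or.inr ⟨cRem q r, ?_, fun _ => .var e, fun j => vl q (Gs.getD j []), ?_, ?_⟩
  · unfold SysS
    rw [List.mem_append, List.mem_append]
    exact Or.inl (Or.inr (List.mem_map.2 ⟨r, mem_vals r, rfl⟩))
  · unfold cRem
    rw [inst_mdS, List.flatMap_map]
    congr 2
    have h1 := getD_flatMap Gs (fun g => vl q g)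
    rw [hG] at h1
    simp only [Sch.inst]
    rw [h1]
    unfold vl
    rw [List.map_flatten, List.flatMap_def]
  · intro P hP A hA
    simp only [cRem, List.mem_cons, List.not_mem_nil, or_false] at hP
    subst hP
    rw [inst_mdS, List.mem_singleton] at hA
    rw [hA]
    have h1 := getD_flatMap Gs (fun g => (Fm.var e : Fm q) :: vl q g)
    rw [hG] at h1
    have h2 : (((List.range q).flatMap fun j => [(Sch.mv 0 : Sch q), Sch.sq j]).flatMap
        (Sch.inst (fun _ => (Fm.var e : Fm q)) fun j => vl q (Gs.getD j []))) = vl q (Gs.flatMap fun g => e :: g) := by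
      rw [List.flatMap_assoc]
      have h3 : ∀ j, ([(Sch.mv 0 : Sch q), Sch.sq j].flatMap (Sch.inst (fun _ => (Fm.var e : Fm q)) fun j => vl q (Gs.getD j []))) =
          (Fm.var e : Fm q) :: vl q (Gs.getD j []) := by
        intro j
        simp [Sch.inst]
      simp only [h3]
      rw [h1]
      unfold vl
      rw [List.map_flatMap]
      rfl
    rw [h2]
    exact h

theorem sq_bot (r : ZMod q) (hr : r ≠ 0) (h : mdL r (vl q []) ∈ T) : StepT (SysS q) F T (cnL true []) := by
  refine Or.inr ⟨cBot q r, ?_, fun _ => .var 0, fun _ => [], ?_, ?_⟩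
  · unfold SysS
    rw [List.mem_append]
    refine Or.inr (List.mem_map.2 ⟨r, List.mem_filter.2 ⟨mem_vals r, ?_⟩, rfl⟩)
    simpa using hr
  · unfold cBot
    rw [Sch.inst]
    simp
  · intro P hP A hA
    simp only [cBot, List.mem_cons, List.not_mem_nil, or_false] at hP
    subst hP
    rw [inst_mdS, List.mem_singleton] at hA
    rw [hA]
    simpa [vl] using h

variable {S : List (Rule q)}

theorem dvr (hS : ∀ R ∈ SysS q, R ∈ S) (r : ZMod q) : ∀ (n : ℕ) (L : List ℕ), L.length ≤ n → 1 + L.length ≤ B →
    (∀ e ∈ L, L.count e = q) → ∀ k : ℕ, Dv S F 2 B k (insert (mdL r (vl q L)) T) →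
    Dv S F 2 B (k + n) (insert (mdL r (vl q [])) T) := by
  intro n
  induction n with
  | zero =>
    intro L hL _ _ k h
    have h0 : L = [] := List.length_eq_zero_iff.1 (by omega)
    subst h0
    exact h
  | succ n ih =>
    intro L hL hB hc k h
    match L, hL, hB, hc, h with
    | [], _, _, _, h => exact h.mono (by omega) subset_rfl
    | e :: L, hL, hB, hc, h =>
      obtain ⟨g, gs, h1, h2, h3⟩ := split_occ e L
      have hce := hc e List.mem_cons_self
      rw [List.count_cons_self] at hce
      have hlen : (g :: gs).length = q := by rw [List.length_cons, h1, hce]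
      have hflat : (e :: L) = (g :: gs).flatMap fun g => e :: g := by
        rw [List.flatMap_cons, List.cons_append, ← h2]
      have hfil : (g :: gs).flatten = L.filter (fun a => a ≠ e) := by rw [List.flatten_cons, h3]
      rw [List.length_cons] at hL hB
      have h4 : (L.filter (fun a => a ≠ e)).length ≤ L.length := List.length_filter_le _ _
      have h5 := h.step (stepT_mono hS (sq_rem r e (g :: gs) hlen (by rw [← hflat]; exact Set.mem_insert _ _)))
        (dep_vl _ _) (by
          rw [size_mdL, sum_vl, hfil]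
          omega)
      rw [hfil] at h5
      have h6 := ih (L.filter (fun a => a ≠ e)) (by omega) (by omega) (by
        intro f hf
        rw [List.mem_filter] at hf
        have hfe : f ≠ e := by simpa using hf.2
        rw [List.count_filter (by simpa using hfe)]
        have h7 := hc f (List.mem_cons_of_mem _ hf.1)
        rwa [List.count_cons_of_ne (Ne.symm hfe)] at h7) (k + 1) (h5.mono le_rfl (ins_mono subset_rfl))
      exact h6.mono (by omega) subset_rfl

/-- The sum of the equations of the vertices. -/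
theorem dvs (hS : ∀ R ∈ SysS q, R ∈ S) : ∀ V : List (List ℕ × ZMod q),
    (∀ x ∈ V, ∀ T' : Set (Fm q), T ⊆ T' → StepT S F T' (mdL x.2 (vl q x.1))) → 1 + (V.flatMap Prod.fst).length ≤ B →
    Dv S F 2 B k T → Dv S F 2 B (k + 1 + 2 * V.length) (insert (mdL (V.map Prod.snd).sum (vl q (V.flatMap Prod.fst))) T) := by
  intro V
  induction V using List.reverseRecOn with
  | nil =>
    intro _ hB h
    have h1 := h.step (stepT_mono hS sq_emp) (dep_vl _ _) (by
      rw [size_mdL, sum_vl, List.length_nil]
      omega)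
    exact h1.mono (by omega) subset_rfl
  | append_singleton V x ih =>
    intro hx hB h
    rw [List.flatMap_append, List.length_append] at hB
    have h1 := ih (fun y hy => hx y (List.mem_append_left _ hy)) (by omega) h
    have h2 := h1.step (hx x (by simp) _ (Set.subset_insert _ _)) (dep_vl _ _) (by
      rw [size_mdL, sum_vl]
      simp only [List.flatMap_cons, List.flatMap_nil, List.append_nil] at hB
      omega)
    have h3 := h2.step (stepT_mono hS (sq_sum (V.map Prod.snd).sum x.2 (V.flatMap Prod.fst) x.1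
      (Set.mem_insert_of_mem _ (Set.mem_insert _ _)) (Set.mem_insert _ _))) (dep_vl _ _) (by
        rw [size_mdL, sum_vl, List.length_append]
        simp only [List.flatMap_cons, List.flatMap_nil, List.append_nil] at hB
        omega)
    have e1 : ((V ++ [x]).map Prod.snd).sum = (V.map Prod.snd).sum + x.2 := by simp
    have e2 : (V ++ [x]).flatMap Prod.fst = V.flatMap Prod.fst ++ x.1 := by simp
    rw [e1, e2]
    refine h3.mono (by rw [List.length_append, List.length_singleton]; omega) ?_
    intro A hA
    rcases Set.mem_insert_iff.1 hA with h4 | h4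
    · rw [h4]
      exact Set.mem_insert _ _
    · exact Set.mem_insert_of_mem _ (Set.mem_insert_of_mem _ (Set.mem_insert_of_mem _ h4))

/-- The refutation. -/
theorem up_core (hS : ∀ R ∈ SysS q, R ∈ S) (V : List (List ℕ × ZMod q)) (w : ℕ) (hw : ∀ C ∈ F, C.length ≤ w)
    (hV : ∀ x ∈ V, ∀ T' : Set (Fm q), {A | ∃ C ∈ F, A = clauseFm C} ⊆ T' → StepT S F T' (mdL x.2 (vl q x.1)))
    (hc : ∀ a ∈ V.flatMap Prod.fst, (V.flatMap Prod.fst).count a = q) (hs : (V.map Prod.snd).sum ≠ 0) :
    ∃ π : List (Fm q), Refutes S 2 F π ∧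
      psize π ≤ (F.length + 2 + 2 * V.length + (V.flatMap Prod.fst).length) * (1 + 2 * w + (V.flatMap Prod.fst).length) := by
  set B := 1 + 2 * w + (V.flatMap Prod.fst).length with hB
  have h0 : Dv S F 2 B F.length {A | ∃ C ∈ F, A = clauseFm C} := by
    refine dv_clauses le_rfl fun C hC => ?_
    have := hw C hC
    omega
  have h1 := dvs (B := B) hS V hV (by omega) h0
  have h2 := dvr hS _ _ (V.flatMap Prod.fst) le_rfl (by omega) hc _ h1
  have h3 := h2.step (stepT_mono hS (sq_bot _ hs (Set.mem_insert _ _))) (by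
    unfold Fm.depth cnL
    rw [Fm.dep]
    simp) (by
    rw [size_cnL, List.map_nil, List.sum_nil]
    omega)
  obtain ⟨π, h4, h5⟩ := h3.refutes (Set.mem_insert _ _)
  refine ⟨π, h4, h5.trans (Nat.mul_le_mul_right _ (by omega))⟩

end

end PPh.TU
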